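import Pool.Agent.H93.TR.KerBasic

/-!
# Finite orbits

Module H93 TR DFIN (MP_2a547c_gt). Complete proof. `E = L<s>` by `hs`. `S = stabilizer E i` has finite index: the orbit of
`i` is `{s ^ n • i : 0 ≤ n < m}` because `L` acts trivially (`MulAction.orbitEquivQuotientStabilizer`,
`MulAction.finiteIndex_stabilizer...` or directly). `S` fixes all `s ^ n • i`: let `x ∈ S`, `x = l * s ^ k` with `l ∈ L`; then
`s ^ k • i = i`, so `x • s ^ n • i = s ^ k • s ^ n • i = s ^ n • i`. `⨅ n : ℤ, W (s ^ n • i)` is normal in `E`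
(`F.conj`: conjugation by `g = l * s ^ k` maps `W (s ^ n • i)` to `W (g • s ^ n • i) = W (s ^ (k + n) • i)`), is contained in
`L ≤ S`, and its `subgroupOf S` is the intersection over `n : Fin m` of the `(W (s ^ n • i)).subgroupOf S` (as
`s ^ m • i = i`), each of which is the `comap` of `(W j).subgroupOf (stabilizer E j)`, `j = s ^ n • i`, under the inclusion
`S ≤ stabilizer E j`: `IsKer.comap`, `IsKer.inf`; finally `IsKer.index`.
-/

set_option autoImplicit false

namespace Pool.Agent.H93.TR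

open Pool.Agent.H98.FJ

variable {C : (G : Type) → [Group G] → Prop}

/-- the powers of `s` on a periodic point -/
theorem zpow_smul_mod {E I : Type} [Group E] [MulAction E I] (s : E) (i : I) (m : ℕ)
    (hmi : s ^ m • i = i) (k : ℤ) : s ^ k • i = s ^ (k % m) • i := by
  have h1 : s ^ m ∈ MulAction.stabilizer E i := hmi
  have h2 : (s ^ m) ^ (k / m) • i = i := (MulAction.stabilizer E i).zpow_mem h1 (k / m)
  conv_lhs => rw [← Int.emod_add_mul_ediv k m]
  rw [zpow_add, mul_smul, zpow_mul, zpow_natCast, h2]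

theorem smul_zpow_smul {E I : Type} [Group E] [MulAction E I] {L : Subgroup E}
    {W : I → Subgroup E} (F : Fam E I L W) (s : E) (i : I) (x : E) (k : ℤ) (hk : x * s ^ k ∈ L)
    (n : ℤ) : x • s ^ n • i = s ^ (n - k) • i := by
  have h1 := F.triv (x * s ^ k) hk (s ^ (n - k) • i)
  rw [mul_smul, smul_smul (s ^ k), ← zpow_add, add_sub_cancel] at h1
  exact h1

theorem fin_orbit (hC : Inherits C) {E I : Type} [Group E] [MulAction E I] {L : Subgroup E}
    {W : I → Subgroup E} (F : Fam E I L W) (s : E) (hs : ∀ x : E, ∃ n : ℤ, x * s ^ n ∈ L)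
    (hst : ∀ i, IsKer C ((W i).subgroupOf (MulAction.stabilizer E i))) (i : I) (m : ℕ)
    (hm : 0 < m) (hmi : s ^ m • i = i) : IsKer C (⨅ n : ℤ, W (s ^ n • i)) := by
  have hmod : ∀ k : ℤ, ∃ r : Fin m, s ^ k • i = s ^ ((r : ℕ) : ℤ) • i := by
    intro k
    have hm0 : (0 : ℤ) < m := by exact_mod_cast hm
    have h1 := Int.emod_nonneg k hm0.ne'
    have h2 := Int.emod_lt_of_pos k hm0
    refine ⟨⟨(k % m).toNat, by omega⟩, ?_⟩
    rw [zpow_smul_mod s i m hmi k]
    congr 2
    change k % m = (((k % m).toNat : ℕ) : ℤ)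
    omega
  have hnor : (⨅ n : ℤ, W (s ^ n • i)).Normal := by
    constructor
    intro x hx g
    rw [Subgroup.mem_iInf] at hx ⊢
    intro n
    obtain ⟨k, hk⟩ := hs g
    have h1 := F.conj g (s ^ (n + k) • i) x (hx (n + k))
    rw [smul_zpow_smul F s i g k hk, add_sub_cancel_right] at h1
    exact h1
  have hLS : L ≤ MulAction.stabilizer E i := fun l hl => F.triv l hl i
  have hNS : (⨅ n : ℤ, W (s ^ n • i)) ≤ MulAction.stabilizer E i :=
    ((iInf_le (fun n : ℤ => W (s ^ n • i)) 0).trans (F.le _)).trans hLS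
  have hfin : (MulAction.stabilizer E i).FiniteIndex := by
    constructor
    rw [MulAction.index_stabilizer]
    have hf : (MulAction.orbit E i).Finite := by
      refine (Set.finite_range (fun r : Fin m => s ^ ((r : ℕ) : ℤ) • i)).subset ?_
      rintro _ ⟨x, rfl⟩
      obtain ⟨k, hk⟩ := hs x
      have h1 := smul_zpow_smul F s i x k hk 0
      rw [zpow_zero, one_smul] at h1
      obtain ⟨r, hr⟩ := hmod (0 - k)
      exact ⟨r, (h1.trans hr).symm⟩
    exact ((Set.ncard_pos hf).2 ⟨i, MulAction.mem_orbit_self i⟩).ne'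
  have hle : ∀ n : ℤ, MulAction.stabilizer E i ≤ MulAction.stabilizer E (s ^ n • i) := by
    intro n x hx
    obtain ⟨k, hk⟩ := hs x
    have h1 := smul_zpow_smul F s i x k hk 0
    rw [zpow_zero, one_smul, hx, zero_sub] at h1
    have h2 := smul_zpow_smul F s i x k hk n
    rw [sub_eq_add_neg, zpow_add, mul_smul, ← h1] at h2
    exact h2
  have heq : (⨅ n : ℤ, W (s ^ n • i)).subgroupOf (MulAction.stabilizer E i) =
      ⨅ r : Fin m, (W (s ^ ((r : ℕ) : ℤ) • i)).subgroupOf (MulAction.stabilizer E i) := by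
    ext x
    rw [Subgroup.mem_subgroupOf, Subgroup.mem_iInf, Subgroup.mem_iInf]
    constructor
    · intro h r
      exact h ((r : ℕ) : ℤ)
    · intro h n
      obtain ⟨r, hr⟩ := hmod n
      rw [hr]
      exact h r
  refine IsKer.index hC hnor (MulAction.stabilizer E i) hfin hNS ?_
  rw [heq]
  refine IsKer.inf hC _ fun r => ?_
  have h1 := (hst (s ^ ((r : ℕ) : ℤ) • i)).comap
    (Subgroup.inclusion (hle ((r : ℕ) : ℤ)))
  exact h1

end Pool.Agent.H93.TR
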