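import Pool.Agent.H93.TR.KerBasic

/-!
# Infinite orbits

Module H93 TR DINF (MP_2a547c_gt). Complete proof. As `L ≤ stabilizer E i`, `IsKer.comap` along the inclusion gives a group
`A` in the class and `φ : L →* A` with kernel `(W i).subgroupOf L` (i.e. `φ l = 1 ↔ l ∈ W i`). For `x : E` there is exactly
one `n : ℤ` with `x * s ^ (-n) ∈ L` (existence `hs`; if `s ^ k ∈ L` then `s ^ k • i = i` by `F.triv`, so `k = 0` by
`hinf` applied to `k.natAbs`); this gives a homomorphism `τ : E →* Multiplicative ℤ` with kernel `L`,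
`τ s = ofAdd 1`. Write `x = l_x * s ^ n`, `n = τ x`. Define `Φ : E →* WZ A`, `Φ x = ⟨b_x, ofAdd n⟩` with
`b_x k = φ (s ^ (-k) * l_x * s ^ k)` (`L` is normal). `b_x` has finite support: `b_x k ≠ 1` iff `s ^ (-k) * l_x * s ^ k` is
not in `W i` iff `l_x ∉ W (s ^ k • i)` (`F.conj` for `s ^ k` and `s ^ (-k)`), and `k ↦ s ^ k • i` is injective, so the
set is finite by `F.fin`. Homomorphism: `l_{x y} = l_x * (s ^ n * l_y * s ^ (-n))`, so
`b_{xy} k = b_x k * b_y (k - n)`, which is the multiplication of `WZ A` (`perm_apply`, `trans_apply`: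
`(perm A (trans n) b) k = b (k - n)`). Kernel: `n = 0` and `x = l_x ∈ W (s ^ k • i)` for all `k`, i.e. the
intersection; conversely elements of the intersection lie in `L` (`F.le`) and have `n = 0`. Then use `hW A hA : C (WZ A)`.
-/

set_option autoImplicit false

namespace Pool.Agent.H93.TR

open Pool.Agent.H98.FJ

variable {C : (G : Type) → [Group G] → Prop}

theorem inf_orbit (hC : Inherits C) (hW : ∀ (A : Type) [Group A], C A → C (WZ A)) {E I : Type}
    [Group E] [MulAction E I] {L : Subgroup E} {W : I → Subgroup E} (F : Fam E I L W) (s : E)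
    (hs : ∀ x : E, ∃ n : ℤ, x * s ^ n ∈ L)
    (hst : ∀ i, IsKer C ((W i).subgroupOf (MulAction.stabilizer E i))) (i : I)
    (hinf : ∀ m : ℕ, 0 < m → s ^ m • i ≠ i) : IsKer C (⨅ n : ℤ, W (s ^ n • i)) := by
  have hLi : L ≤ MulAction.stabilizer E i := fun l hl => F.triv l hl i
  obtain ⟨A, hAg, φ, hA, hφ⟩ := (hst i).comap (Subgroup.inclusion hLi)
  have hφ' : ∀ l : L, φ l = 1 ↔ (l : E) ∈ W i := by
    intro l
    rw [← MonoidHom.mem_ker, hφ]
    rfl
  have hs0 : ∀ k : ℤ, s ^ k • i = i → k = 0 := by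
    intro k hk
    by_contra hne
    have h1 : 0 < k.natAbs := Int.natAbs_pos.2 hne
    refine hinf k.natAbs h1 ?_
    rcases Int.natAbs_eq k with h | h
    · rw [← zpow_natCast, ← h]
      exact hk
    · rw [h, zpow_neg, zpow_natCast, inv_smul_eq_iff] at hk
      exact hk.symm
  have hsinj : Function.Injective (fun k : ℤ => s ^ k • i) := by
    intro a b hab
    have h1 : s ^ (b - a) • i = i := by
      have h2 : s ^ a • i = s ^ b • i := hab
      have h3 : s ^ (b - a) = (s ^ a)⁻¹ * s ^ b := by group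
      rw [h3, mul_smul, ← h2, inv_smul_smul]
    have h4 := hs0 _ h1
    omega
  choose nn hnn using hs
  obtain ⟨τ, hτ⟩ : ∃ τ : E → ℤ, ∀ x, x * s ^ (-(τ x)) ∈ L :=
    ⟨fun x => -nn x, fun x => by rw [neg_neg]; exact hnn x⟩
  have huniq : ∀ x : E, ∀ a : ℤ, x * s ^ (-a) ∈ L → τ x = a := by
    intro x a ha
    have h1 : s ^ (τ x - a) ∈ L := by
      have h2 := L.mul_mem (L.inv_mem (hτ x)) ha
      have h3 : (x * s ^ (-(τ x)))⁻¹ * (x * s ^ (-a)) = s ^ (τ x - a) := by group
      rwa [h3] at h2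
    have h4 := hs0 _ (F.triv _ h1 i)
    omega
  have hcj : ∀ (k : ℤ) (l : L), s ^ (-k) * (l : E) * s ^ k ∈ L := by
    intro k l
    have h1 := F.normal.conj_mem (l : E) l.2 (s ^ (-k))
    have h2 : (s ^ (-k))⁻¹ = s ^ k := by group
    rwa [h2] at h1
  let lf : E → L := fun x => ⟨x * s ^ (-(τ x)), hτ x⟩
  let cj : ℤ → L → L := fun k l => ⟨s ^ (-k) * (l : E) * s ^ k, hcj k l⟩
  have hmul : ∀ x y, τ (x * y) = τ x + τ y := by
    intro x y
    apply huniq
    have h1 := F.normal.conj_mem _ (hτ y) (s ^ (τ x))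
    have h2 := L.mul_mem (hτ x) h1
    have h3 : x * s ^ (-(τ x)) * (s ^ (τ x) * (y * s ^ (-(τ y))) * (s ^ (τ x))⁻¹) =
        x * y * s ^ (-(τ x + τ y)) := by group
    rwa [h3] at h2
  have hone : ∀ (k : ℤ) (l : L), φ (cj k l) = 1 ↔ (l : E) ∈ W (s ^ k • i) := by
    intro k l
    rw [hφ']
    constructor
    · intro h
      have h1 := F.conj (s ^ k) i _ h
      have h2 : s ^ k * (s ^ (-k) * (l : E) * s ^ k) * (s ^ k)⁻¹ = l := by group
      change s ^ k * (s ^ (-k) * (l : E) * s ^ k) * (s ^ k)⁻¹ ∈ _ at h1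
      rwa [h2] at h1
    · intro h
      have h1 := F.conj (s ^ (-k)) (s ^ k • i) _ h
      have h2 : s ^ (-k) * (l : E) * (s ^ (-k))⁻¹ = s ^ (-k) * (l : E) * s ^ k := by group
      have h3 : s ^ (-k) • s ^ k • i = i := by
        rw [smul_smul, ← zpow_add, neg_add_cancel, zpow_zero, one_smul]
      rw [h2, h3] at h1
      exact h1
  have hfin : ∀ l : L, {k : ℤ | φ (cj k l) ≠ 1}.Finite := by
    intro l
    have h1 : {k : ℤ | φ (cj k l) ≠ 1} = (fun k : ℤ => s ^ k • i) ⁻¹' {j | (l : E) ∉ W j} := by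
      ext k
      exact not_congr (hone k l)
    rw [h1]
    exact Set.Finite.preimage hsinj.injOn (F.fin l l.2)
  have hcjmul : ∀ (x y : E) (k : ℤ), cj k (lf (x * y)) = cj k (lf x) * cj (-(τ x) + k) (lf y) := by
    intro x y k
    apply Subtype.ext
    change s ^ (-k) * (x * y * s ^ (-(τ (x * y)))) * s ^ k =
      (s ^ (-k) * (x * s ^ (-(τ x))) * s ^ k) *
        (s ^ (-(-(τ x) + k)) * (y * s ^ (-(τ y))) * s ^ (-(τ x) + k))
    rw [hmul]
    group
  let Φ : E →* WZ A := MonoidHom.mk'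
    (fun x => (⟨⟨fun k => φ (cj k (lf x)), mem_FS.2 (hfin (lf x))⟩, Multiplicative.ofAdd (τ x)⟩ :
      WZ A)) (by
      intro x y
      refine SemidirectProduct.ext ?_ ?_
      · apply Subtype.ext
        funext k
        change φ (cj k (lf (x * y))) = φ (cj k (lf x)) * φ (cj ((trans (Multiplicative.ofAdd (τ x)))⁻¹ k) (lf y))
        have h1 : (trans (Multiplicative.ofAdd (τ x)))⁻¹ k = -(τ x) + k := by
          rw [← map_inv, trans_apply]
          simp
        rw [h1, ← map_mul, hcjmul]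
      · change Multiplicative.ofAdd (τ (x * y)) = Multiplicative.ofAdd (τ x) * Multiplicative.ofAdd (τ y)
        rw [hmul, ofAdd_add])
  refine ⟨WZ A, inferInstance, Φ, hW A hA, ?_⟩
  ext x
  rw [MonoidHom.mem_ker, Subgroup.mem_iInf]
  have hΦ1 : Φ x = 1 ↔ (∀ k, φ (cj k (lf x)) = 1) ∧ τ x = 0 := by
    constructor
    · intro h
      refine ⟨fun k => ?_, ?_⟩
      · have h1 := congrArg (fun z : WZ A => z.left.1 k) h
        exact h1
      · have h1 := congrArg (fun z : WZ A => Multiplicative.toAdd z.right) h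
        exact h1
    · rintro ⟨h1, h2⟩
      refine SemidirectProduct.ext ?_ ?_
      · apply Subtype.ext
        funext k
        exact h1 k
      · change Multiplicative.ofAdd (τ x) = 1
        rw [h2]
        rfl
  rw [hΦ1]
  constructor
  · rintro ⟨h1, h2⟩ k
    have h3 := (hone k (lf x)).1 (h1 k)
    have h4 : ((lf x : L) : E) = x := by
      change x * s ^ (-(τ x)) = x
      rw [h2, neg_zero, zpow_zero, mul_one]
    rwa [h4] at h3
  · intro h
    have h0 : x ∈ L := F.le _ (h 0)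
    have h2 : τ x = 0 := by
      apply huniq
      rw [neg_zero, zpow_zero, mul_one]
      exact h0
    have h4 : ((lf x : L) : E) = x := by
      change x * s ^ (-(τ x)) = x
      rw [h2, neg_zero, zpow_zero, mul_one]
    refine ⟨fun k => ?_, h2⟩
    rw [hone, h4]
    exact h k

end Pool.Agent.H93.TR
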