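import Pool.Agent.H93.TR.KerBasic

/-!
# Directed unions over finite sets of orbits

Module H93 TR DUNION (MP_2a547c_gt). Complete proof. For a finite set `J : Finset I` let `K_J` be the set of the `k ∈ L` with
`k ∈ W j` for all `j` which are not of the form `s ^ m • i`, `i ∈ J`, `m : ℤ`; it is a subgroup, and
`s ^ n * k * s ^ (-n) ∈ K_J` for `k ∈ K_J` (`F.conj`: if `j` is not in the orbits of `J` then `s ^ (-n) • j` is not
either). Let `T_J = {x | ∃ k ∈ K_J, ∃ n : ℤ, x = k * s ^ n}`, a subgroup of `E`. `T_J ≤ T_J'` for `J ⊆ J'`. Every `x : E` is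
in some `T_J`: `x * s ^ n = l ∈ L`, take `J = (F.fin l _).toFinset`. `⨅ i, W i` is normal in `E` (`F.conj`). If `I` is empty
then `⨅ i, W i = ⊤` and the claim is trivial (the trivial homomorphism, `hC.fin Unit`). Otherwise, for each `J`,
`(⨅ i, W i).subgroupOf T_J = (L ⊓ ⨅ i : J, ⨅ n : ℤ, W (s ^ n • i)).subgroupOf T_J`: let `x = k * s ^ n` be in the right
hand side. As `x ∈ L` and `k ∈ L`, `s ^ n ∈ L`, so `s ^ n = 1` by `hs1` and `x = k`; so `x ∈ W j` for all `j` outside the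
orbits of `J`, and for `j = s ^ m • i`, `i ∈ J`, also. The right hand side is `IsKer` by `IsKer.inf_two`, `IsKer.inf`,
`IsKer.comap`. Apply `IsKer.union` with index set `Finset I`.
-/

set_option autoImplicit false

namespace Pool.Agent.H93.TR

open Pool.Agent.H98.FJ

variable {C : (G : Type) → [Group G] → Prop}

/-- the elements of `L` which lie in all `W j`, `j` outside the orbits of `J` -/
def duK {E I : Type} [Group E] [MulAction E I] (L : Subgroup E) (W : I → Subgroup E) (s : E)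
    (J : Finset I) : Subgroup E where
  carrier := {k | k ∈ L ∧ ∀ j, (∀ i ∈ J, ∀ m : ℤ, j ≠ s ^ m • i) → k ∈ W j}
  one_mem' := ⟨L.one_mem, fun j _ => (W j).one_mem⟩
  mul_mem' := fun ha hb => ⟨L.mul_mem ha.1 hb.1, fun j hj => (W j).mul_mem (ha.2 j hj) (hb.2 j hj)⟩
  inv_mem' := fun ha => ⟨L.inv_mem ha.1, fun j hj => (W j).inv_mem (ha.2 j hj)⟩

theorem mem_duK {E I : Type} [Group E] [MulAction E I] {L : Subgroup E} {W : I → Subgroup E}
    {s : E} {J : Finset I} {k : E} : k ∈ duK L W s J ↔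
      k ∈ L ∧ ∀ j, (∀ i ∈ J, ∀ m : ℤ, j ≠ s ^ m • i) → k ∈ W j := Iff.rfl

theorem duK_conj {E I : Type} [Group E] [MulAction E I] {L : Subgroup E}
    {W : I → Subgroup E} (F : Fam E I L W) (s : E) (J : Finset I) (k : E) (hk : k ∈ duK L W s J)
    (n : ℤ) : s ^ n * k * (s ^ n)⁻¹ ∈ duK L W s J := by
  refine ⟨F.normal.conj_mem k hk.1 (s ^ n), fun j hj => ?_⟩
  have h1 : k ∈ W ((s ^ n)⁻¹ • j) := by
    refine hk.2 _ fun i hi m h => hj i hi (n + m) ?_
    rw [zpow_add, mul_smul, ← h, smul_inv_smul]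
  have h2 := F.conj (s ^ n) _ k h1
  rwa [smul_inv_smul] at h2

/-- the subgroup generated by `duK` and `s` -/
def duT {E I : Type} [Group E] [MulAction E I] {L : Subgroup E}
    {W : I → Subgroup E} (F : Fam E I L W) (s : E) (J : Finset I) : Subgroup E where
  carrier := {x | ∃ k ∈ duK L W s J, ∃ n : ℤ, x = k * s ^ n}
  one_mem' := ⟨1, one_mem _, 0, by simp⟩
  mul_mem' := by
    rintro a b ⟨k, hk, n, rfl⟩ ⟨k', hk', n', rfl⟩
    refine ⟨k * (s ^ n * k' * (s ^ n)⁻¹), mul_mem hk (duK_conj F s J k' hk' n), n + n', ?_⟩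
    rw [zpow_add]
    group
  inv_mem' := by
    rintro a ⟨k, hk, n, rfl⟩
    refine ⟨s ^ (-n) * k⁻¹ * (s ^ (-n))⁻¹, duK_conj F s J k⁻¹ (inv_mem hk) (-n), -n, ?_⟩
    group

theorem orbit_union (hC : Inherits C) {E I : Type} [Group E] [MulAction E I] {L : Subgroup E}
    {W : I → Subgroup E} (F : Fam E I L W) (hL : IsKer C L) (s : E)
    (hs : ∀ x : E, ∃ n : ℤ, x * s ^ n ∈ L) (hs1 : ∀ n : ℤ, s ^ n ∈ L → s ^ n = 1)
    (h : ∀ i, IsKer C (⨅ n : ℤ, W (s ^ n • i))) : IsKer C (⨅ i, W i) := by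
  classical
  by_cases hI : Nonempty I
  swap
  · have hI' : IsEmpty I := not_nonempty_iff.mp hI
    rw [iInf_of_empty]
    refine ⟨Unit, inferInstance, 1, hC.fin Unit inferInstance, ?_⟩
    ext x
    simp
  have hn : (⨅ i, W i).Normal := by
    refine ⟨fun x hx g => ?_⟩
    rw [Subgroup.mem_iInf] at hx ⊢
    intro j
    have h1 := F.conj g _ x (hx (g⁻¹ • j))
    rwa [smul_inv_smul] at h1
  refine IsKer.union hC hn (ι := Finset I) (fun J => duT F s J) ?_ ?_ ?_
  · rintro J J' hJ x ⟨k, hk, n, rfl⟩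
    exact ⟨k, ⟨hk.1, fun j hj => hk.2 j fun i hi m => hj i (hJ hi) m⟩, n, rfl⟩
  · intro x
    obtain ⟨n, hn⟩ := hs x
    refine ⟨(F.fin _ hn).toFinset, x * s ^ n, ⟨hn, fun j hj => ?_⟩, -n, by group⟩
    by_contra h1
    refine hj j ?_ 0 ?_
    · rw [Set.Finite.mem_toFinset]
      exact h1
    · rw [zpow_zero, one_smul]
  · intro J
    have he : (⨅ i, W i).subgroupOf (duT F s J) =
        (L ⊓ ⨅ i : {i // i ∈ J}, ⨅ n : ℤ, W (s ^ n • (i : I))).subgroupOf (duT F s J) := by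
      ext ⟨x, hx⟩
      rw [Subgroup.mem_subgroupOf, Subgroup.mem_subgroupOf]
      change x ∈ (⨅ i, W i) ↔ x ∈ L ⊓ ⨅ i : {i // i ∈ J}, ⨅ n : ℤ, W (s ^ n • (i : I))
      constructor
      · intro h1
        rw [Subgroup.mem_iInf] at h1
        obtain ⟨i₀⟩ := hI
        refine Subgroup.mem_inf.mpr ⟨F.le i₀ (h1 i₀), ?_⟩
        rw [Subgroup.mem_iInf]
        intro i
        rw [Subgroup.mem_iInf]
        intro n
        exact h1 _
      · intro h1
        obtain ⟨h2, h3⟩ := Subgroup.mem_inf.mp h1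
        obtain ⟨k, hk, n, hkn⟩ := hx
        have h4 : s ^ n ∈ L := by
          have h5 : s ^ n = k⁻¹ * x := by rw [hkn]; group
          rw [h5]
          exact L.mul_mem (L.inv_mem hk.1) h2
        have h6 : x = k := by rw [hkn, hs1 n h4, mul_one]
        rw [Subgroup.mem_iInf]
        intro j
        by_cases hj : ∀ i ∈ J, ∀ m : ℤ, j ≠ s ^ m • i
        · rw [h6]
          exact hk.2 j hj
        · push Not at hj
          obtain ⟨i, hi, m, hm⟩ := hj
          rw [Subgroup.mem_iInf] at h3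
          have h7 := h3 ⟨i, hi⟩
          rw [Subgroup.mem_iInf] at h7
          rw [hm]
          exact h7 m
    rw [he]
    exact IsKer.comap (IsKer.inf_two hC hL (IsKer.inf hC _ fun i : {i // i ∈ J} => h i))
      (duT F s J).subtype

end Pool.Agent.H93.TR
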