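import Pool.Agent.H93.TR.KerExt
import Pool.Agent.H93.TR.DFin
import Pool.Agent.H93.TR.DInf
import Pool.Agent.H93.TR.DUnion

/-!
# Permuted families

Module H93 TR DMAIN (MP_2a547c_gt). Complete proof. `M = ⨅ i, W i` is normal (`F.conj`). If `I` is empty then `M = ⊤`: trivial
homomorphism to `Unit` (`hC.fin`). Otherwise `M ≤ L`; apply `IsKer.ext` with `N := M`: let `s : G` with
`∀ n, s ^ n ∈ L → s ^ n = 1` and `E = L ⊔ Subgroup.zpowers s`. The group `E` acts on `I` (restriction), and
`F' : Fam E I (L.subgroupOf E) (fun i => (W i).subgroupOf E)` follows from `F` (no choice of `E` is needed here).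
`∀ x : E, ∃ n, x * s' ^ n ∈ L.subgroupOf E` for `s' = ⟨s, _⟩`: `L` is normal, so the elements of `E` are the
`l * s ^ k` (`Subgroup.mul_normal`/`Subgroup.normal_mul`, or closure induction). The stabiliser condition for `E` is the
`comap` of the one for `G` under the inclusion `stabilizer E i → stabilizer G i`. So for every `i` the group
`⨅ n : ℤ, (W (s ^ n • i)).subgroupOf E` is `IsKer`: by `fin_orbit` if some `s ^ m • i = i`, `m > 0`, otherwise by
`inf_orbit`. Apply `orbit_union` (`IsKer C (L.subgroupOf E)` is `IsKer.comap`); finally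
`(⨅ i, W i).subgroupOf E = ⨅ i, (W i).subgroupOf E`.
-/

set_option autoImplicit false

namespace Pool.Agent.H93.TR

open Pool.Agent.H98.FJ

variable {C : (G : Type) → [Group G] → Prop}

theorem fam_restrict {G I : Type} [Group G] [MulAction G I] {L : Subgroup G}
    {W : I → Subgroup G} (F : Fam G I L W) (E : Subgroup G) :
    Fam E I (L.subgroupOf E) (fun i => (W i).subgroupOf E) where
  normal := by
    have := F.normal
    infer_instance
  triv := fun l hl i => F.triv (l : G) hl i
  le := fun i x hx => F.le i hx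
  conj := fun g i x hx => F.conj (g : G) i (x : G) hx
  fin := fun l hl => F.fin (l : G) hl

open scoped Pointwise in
theorem fam_ker (hC : Inherits C) (hE : Extension C)
    (hW : ∀ (A : Type) [Group A], C A → C (WZ A)) {G I : Type} [Group G] [MulAction G I]
    {L : Subgroup G} {W : I → Subgroup G} (F : Fam G I L W) (hL : IsKer C L)
    (hst : ∀ i, IsKer C ((W i).subgroupOf (MulAction.stabilizer G i))) : IsKer C (⨅ i, W i) := by
  have hLn : L.Normal := F.normal
  have hM : (⨅ i, W i : Subgroup G).Normal := by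
    constructor
    intro x hx g
    rw [Subgroup.mem_iInf] at hx ⊢
    intro i
    have h1 := F.conj g (g⁻¹ • i) x (hx _)
    rwa [smul_inv_smul] at h1
  rcases isEmpty_or_nonempty I with hI | ⟨⟨i0⟩⟩
  · rw [iInf_of_empty]
    refine ⟨Unit, inferInstance, 1, hC.fin Unit inferInstance, ?_⟩
    exact MonoidHom.ker_one
  refine IsKer.ext hC hE hM hL ((iInf_le W i0).trans (F.le i0)) ?_
  intro s hs1
  let E : Subgroup G := L ⊔ Subgroup.zpowers s
  have hsE : s ∈ E := (le_sup_right : Subgroup.zpowers s ≤ E) (Subgroup.mem_zpowers s)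
  have hLE : L ≤ E := le_sup_left
  let s' : E := ⟨s, hsE⟩
  have F' := fam_restrict F E
  have hs : ∀ x : E, ∃ n : ℤ, x * s' ^ n ∈ L.subgroupOf E := by
    rintro ⟨x, hx⟩
    have h1 : x ∈ ((L : Set G) * (Subgroup.zpowers s : Set G)) := by
      rw [← Subgroup.normal_mul]
      exact hx
    obtain ⟨l, hl, z, hz, rfl⟩ := Set.mem_mul.1 h1
    obtain ⟨n, rfl⟩ := Subgroup.mem_zpowers_iff.1 hz
    refine ⟨-n, ?_⟩
    rw [Subgroup.mem_subgroupOf]
    change l * s ^ n * s ^ (-n) ∈ L
    rw [zpow_neg, mul_inv_cancel_right]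
    exact hl
  have hs1' : ∀ n : ℤ, s' ^ n ∈ L.subgroupOf E → s' ^ n = 1 := by
    intro n hn
    apply Subtype.ext
    exact hs1 n hn
  have hst' : ∀ i, IsKer C (((W i).subgroupOf E).subgroupOf (MulAction.stabilizer E i)) := by
    intro i
    let ψ : MulAction.stabilizer E i →* MulAction.stabilizer G i :=
      { toFun := fun h => ⟨(h.1 : G), h.2⟩
        map_one' := rfl
        map_mul' := fun _ _ => rfl }
    exact (hst i).comap ψ
  have horb : ∀ i, IsKer C (⨅ n : ℤ, (W (s' ^ n • i)).subgroupOf E) := by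
    intro i
    by_cases h : ∃ m : ℕ, 0 < m ∧ s' ^ m • i = i
    · obtain ⟨m, hm, hmi⟩ := h
      exact fin_orbit hC F' s' hs hst' i m hm hmi
    · push Not at h
      exact inf_orbit hC hW F' s' hs hst' i h
  have h2 := orbit_union hC F' (hL.comap E.subtype) s' hs hs1' horb
  have h3 : (⨅ i, W i : Subgroup G).subgroupOf E = ⨅ i, (W i).subgroupOf E := by
    ext x
    rw [Subgroup.mem_subgroupOf, Subgroup.mem_iInf, Subgroup.mem_iInf]
    exact Iff.rfl
  change IsKer C ((⨅ i, W i : Subgroup G).subgroupOf E)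
  rw [h3]
  exact h2

end Pool.Agent.H93.TR
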