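import Pool.Agent.H93.TR.Pot

/-!
# Inversions

Module H93 TR INV (MP_2a547c_gt). Complete proof. Let `A = Multiplicative (ZMod 2)`, `a ≠ 1` its element with `a * a = 1`,
`h : V → A` a potential (`exists_potential`) of the constant function `a`: `h w = h v * a` for adjacent `v, w`. For
`g : G` the function `v ↦ h (g • v)` has the same increments, so `h (g • v) = ε g * h v` (`potential_unique`), and `ε` is a
homomorphism `G →* A` (`V` is nonempty). Its kernel `H` has finite index (`A` is finite). For `n ∈ H` and adjacent
`v, w` with `n • v = w`: `h w = h v`, a contradiction to `h w = h v * a`.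
-/

set_option autoImplicit false

namespace Pool.Agent.H93.TR

theorem exists_noInv {G V : Type} [Group G] [MulAction G V] {X : SimpleGraph V}
    (hX : OnTree G X) : ∃ H : Subgroup G, H.FiniteIndex ∧ NoInv X H := by
  obtain ⟨a, ha, ha1⟩ : ∃ a : Multiplicative (ZMod 2), a * a = 1 ∧ a ≠ 1 :=
    ⟨Multiplicative.ofAdd 1, by decide, by decide⟩
  obtain ⟨h, hh⟩ := exists_potential hX.tree (fun _ _ => a) (fun _ _ _ => ha)
  have key : ∀ g : G, ∃ e : Multiplicative (ZMod 2), ∀ v, h (g • v) = e * h v := by
    intro g
    refine potential_unique hX.tree.connected h (fun v => h (g • v)) ?_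
    intro v w hvw
    rw [hh v w hvw, hh _ _ (hX.adj g v w hvw), inv_mul_cancel_left, inv_mul_cancel_left]
  choose e he using key
  obtain ⟨v0⟩ : Nonempty V := hX.tree.connected.nonempty
  let φ : G →* Multiplicative (ZMod 2) :=
    { toFun := e
      map_one' := by
        have h1 := he 1 v0
        rw [one_smul] at h1
        exact (mul_eq_right.1 h1.symm)
      map_mul' := by
        intro x y
        have h1 := he (x * y) v0
        rw [mul_smul, he x, he y, ← mul_assoc] at h1
        exact (mul_right_cancel h1).symm }
  refine ⟨φ.ker, inferInstance, ?_⟩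
  intro n hn v w hvw h1 _
  have h2 : e n = 1 := hn
  have h3 := he n v
  rw [h1, h2, one_mul, hh v w hvw] at h3
  exact ha1 (mul_eq_left.1 h3)

end Pool.Agent.H93.TR
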