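import Pool.Agent.H93.TR.GNMem
import Pool.Agent.H98.FJ.P.Col

/-!
# Restricted wreath products with the integers

Module H93 TR WCOL (MP_2a547c_gt). Complete proof. `WZ A` is the colimit of the groups `GN A n`, `n : ℕ`, with the structure
maps `F n m : GN A n →* GN A m` (`n ≤ m`) given by `of b ↦ of b`, `t ↦ t` (`HNNExtension.lift`; relation:
`t * of a = of (shift A a) * t` holds in `GN A m` for `a ∈ lo A n ≤ lo A m`, `HNNExtension.t_mul_of`, `sh_apply`) and the
maps `Φ n : GN A n →* WZ A`, `of b ↦ inl b`, `t ↦ inr (ofAdd 1)` (relation: `SemidirectProduct.inl_aut`: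
`inr (ofAdd 1) * inl a = inl (shift A a) * inr (ofAdd 1)`). Functoriality and compatibility: `HNNExtension.hom_ext` (or
`HNNExtension.induction_on`). Surjective: `inl b = Φ 0 (of b)`, `inr (ofAdd 1) ^ k = Φ 0 (t ^ k)`, every element of `WZ A`
is `inl b * inr n`. Kernel: take `D`, `δ n : GN A n →* D` from `exists_germ` for this system. Define
`P : WZ A →* D` by `SemidirectProduct.lift ((δ 0).comp of) (zpowersHom D (δ 0 t)) _`. The condition is
`δ 0 (of (b shifted by k)) = (δ 0 t) ^ k * δ 0 (of b) * (δ 0 t) ^ (-k)` for all `b : FS A`, `k : ℤ`; by induction on `k`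
(or as both sides are actions of the infinite cyclic group) it suffices to know it for `k = 1`: choose `n` with
`b ∈ lo A n` (finite support), then in `GN A n` `t * of b = of (shift A b) * t`; apply `δ n` and `δ n ∘ F 0 n = δ 0`.
Then `P ∘ Φ n = δ n` (`HNNExtension.hom_ext`), so `Φ n x = 1` implies `δ n x = 1` and `x` dies at some stage. Apply
`hC.colim` with `gn_mem`.
-/

set_option autoImplicit false

namespace Pool.Agent.H93.TR

open Pool.Agent.H98.FJ

variable {C : (G : Type) → [Group G] → Prop}

theorem lo_mono (A : Type) [Group A] {n m : ℕ} (h : n ≤ m) : lo A n ≤ lo A m := by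
  intro b hb
  rw [mem_lo] at hb ⊢
  intro k hk
  have := hb k hk
  omega

/-- the relation in the HNN extensions -/
theorem gn_rel (A : Type) [Group A] (m : ℕ) (b : FS A) (hb : b ∈ lo A m) :
    (HNNExtension.t : GN A m) * HNNExtension.of b =
      HNNExtension.of (shift A b) * HNNExtension.t :=
  HNNExtension.t_mul_of (⟨b, hb⟩ : lo A m)

/-- the structure maps -/
def gnF (A : Type) [Group A] (n m : ℕ) (h : n ≤ m) : GN A n →* GN A m :=
  HNNExtension.lift HNNExtension.of HNNExtension.t
    (fun a => gn_rel A m a.1 (lo_mono A h a.2))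

theorem gnF_of (A : Type) [Group A] (n m : ℕ) (h : n ≤ m) (b : FS A) :
    gnF A n m h (HNNExtension.of b) = HNNExtension.of b :=
  HNNExtension.lift_of _ _ _ _

theorem gnF_t (A : Type) [Group A] (n m : ℕ) (h : n ≤ m) :
    gnF A n m h HNNExtension.t = HNNExtension.t :=
  HNNExtension.lift_t _ _ _

theorem wz_rel (A : Type) [Group A] (b : FS A) :
    (SemidirectProduct.inr (Multiplicative.ofAdd 1) : WZ A) * SemidirectProduct.inl b =
      SemidirectProduct.inl (shift A b) * SemidirectProduct.inr (Multiplicative.ofAdd 1) := by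
  have h := SemidirectProduct.inl_aut (φ := (perm A).comp trans) (Multiplicative.ofAdd 1) b
  change SemidirectProduct.inl (shift A b) = _ at h
  rw [h, map_inv, inv_mul_cancel_right]

/-- the maps to the colimit -/
def gnP (A : Type) [Group A] (n : ℕ) : GN A n →* WZ A :=
  HNNExtension.lift SemidirectProduct.inl (SemidirectProduct.inr (Multiplicative.ofAdd 1))
    (fun a => wz_rel A a.1)

theorem gnP_of (A : Type) [Group A] (n : ℕ) (b : FS A) :
    gnP A n (HNNExtension.of b) = SemidirectProduct.inl b :=
  HNNExtension.lift_of _ _ _ _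

theorem gnP_t (A : Type) [Group A] (n : ℕ) :
    gnP A n HNNExtension.t = SemidirectProduct.inr (Multiplicative.ofAdd 1) :=
  HNNExtension.lift_t _ _ _

theorem exists_lo (A : Type) [Group A] (b : FS A) : ∃ n : ℕ, b ∈ lo A n := by
  obtain ⟨B, hB⟩ := (mem_FS.1 b.2).image Int.natAbs |>.bddAbove
  refine ⟨B + 1, ?_⟩
  rw [mem_lo]
  intro k hk
  have h1 : k.natAbs ≤ B := hB ⟨k, hk, rfl⟩
  omega

theorem gn_colim (A : Type) [Group A] : IsColimit (gnF A) (gnP A) where
  nonempty := ⟨0⟩
  directed i j := ⟨max i j, le_max_left i j, le_max_right i j⟩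
  map_id := by
    intro i h x
    have : gnF A i i h = MonoidHom.id _ := by
      apply HNNExtension.hom_ext
      · ext b
        exact gnF_of A i i h b
      · exact gnF_t A i i h
    rw [this]
    rfl
  map_comp := by
    intro i j k hij hjk hik x
    have : (gnF A j k hjk).comp (gnF A i j hij) = gnF A i k hik := by
      apply HNNExtension.hom_ext
      · ext b
        change gnF A j k hjk (gnF A i j hij (HNNExtension.of b)) = gnF A i k hik (HNNExtension.of b)
        rw [gnF_of, gnF_of, gnF_of]
      · change gnF A j k hjk (gnF A i j hij HNNExtension.t) = gnF A i k hik HNNExtension.t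
        rw [gnF_t, gnF_t, gnF_t]
    exact DFunLike.congr_fun this x
  compat := by
    intro i j h x
    have : (gnP A j).comp (gnF A i j h) = gnP A i := by
      apply HNNExtension.hom_ext
      · refine MonoidHom.ext fun b => ?_
        change gnP A j (gnF A i j h (HNNExtension.of b)) = gnP A i (HNNExtension.of b)
        rw [gnF_of, gnP_of, gnP_of]
      · change gnP A j (gnF A i j h HNNExtension.t) = gnP A i HNNExtension.t
        rw [gnF_t, gnP_t, gnP_t]
    exact DFunLike.congr_fun this x
  surj := by
    intro y
    refine ⟨0, HNNExtension.of y.left * HNNExtension.t ^ (Multiplicative.toAdd y.right), ?_⟩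
    rw [map_mul, map_zpow, gnP_of, gnP_t, ← map_zpow, ← ofAdd_zsmul, smul_eq_mul, mul_one,
      ofAdd_toAdd]
    exact SemidirectProduct.inl_left_mul_inr_right y
  ker := by
    have hdir : ∀ i j : ℕ, ∃ k, i ≤ k ∧ j ≤ k := fun i j =>
      ⟨max i j, le_max_left i j, le_max_right i j⟩
    have hid : ∀ (i : ℕ) (h : i ≤ i) (x : GN A i), gnF A i i h x = x := by
      intro i h x
      have : gnF A i i h = MonoidHom.id _ := by
        apply HNNExtension.hom_ext
        · ext b
          exact gnF_of A i i h b
        · exact gnF_t A i i h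
      rw [this]
      rfl
    have hcomp : ∀ (i j k : ℕ) (hij : i ≤ j) (hjk : j ≤ k) (hik : i ≤ k) (x : GN A i),
        gnF A j k hjk (gnF A i j hij x) = gnF A i k hik x := by
      intro i j k hij hjk hik x
      have : (gnF A j k hjk).comp (gnF A i j hij) = gnF A i k hik := by
        apply HNNExtension.hom_ext
        · ext b
          change gnF A j k hjk (gnF A i j hij (HNNExtension.of b)) =
            gnF A i k hik (HNNExtension.of b)
          rw [gnF_of, gnF_of, gnF_of]
        · change gnF A j k hjk (gnF A i j hij HNNExtension.t) = gnF A i k hik HNNExtension.t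
          rw [gnF_t, gnF_t, gnF_t]
      exact DFunLike.congr_fun this x
    obtain ⟨D, hD, δ, h1, h2⟩ := exists_germ hdir (gnF A) hid hcomp
    have hof : ∀ (n : ℕ) (b : FS A), δ n (HNNExtension.of b) = δ 0 (HNNExtension.of b) := by
      intro n b
      rw [← h1 0 n (Nat.zero_le n), gnF_of]
    have ht : ∀ n : ℕ, δ n HNNExtension.t = δ 0 HNNExtension.t := by
      intro n
      rw [← h1 0 n (Nat.zero_le n), gnF_t]
    have hrel : ∀ b : FS A, δ 0 HNNExtension.t * δ 0 (HNNExtension.of b) =
        δ 0 (HNNExtension.of (shift A b)) * δ 0 HNNExtension.t := by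
      intro b
      obtain ⟨n, hn⟩ := exists_lo A b
      rw [← hof n, ← hof n, ← ht n, ← map_mul, gn_rel A n b hn, map_mul]
    have hpow : ∀ (k : Multiplicative ℤ),
        ((δ 0).comp (HNNExtension.of (A := lo A 0) (B := up A 0) (φ := sh A 0))).comp
          (((perm A).comp trans) k).toMonoidHom =
        (MulAut.conj (zpowersHom D (δ 0 HNNExtension.t) k)).toMonoidHom.comp
          ((δ 0).comp (HNNExtension.of (A := lo A 0) (B := up A 0) (φ := sh A 0))) := by
      let S : Subgroup (Multiplicative ℤ) :=
        { carrier := {k | ∀ b : FS A, δ 0 (HNNExtension.of (((perm A).comp trans) k b)) =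
            zpowersHom D (δ 0 HNNExtension.t) k * δ 0 (HNNExtension.of b) *
              (zpowersHom D (δ 0 HNNExtension.t) k)⁻¹}
          one_mem' := by
            intro b
            rw [map_one, map_one]
            simp
          mul_mem' := by
            intro k l hk hl b
            rw [map_mul, map_mul, MulAut.mul_apply, hk, hl]
            group
          inv_mem' := by
            intro k hk b
            have h3 := hk (((perm A).comp trans) k⁻¹ b)
            rw [← MulAut.mul_apply, ← map_mul, mul_inv_cancel, map_one, MulAut.one_apply] at h3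
            rw [h3, map_inv (zpowersHom D (δ 0 HNNExtension.t))]
            simp only [mul_assoc, inv_mul_cancel_left, inv_inv, inv_mul_cancel, mul_one] }
      have hS : ∀ k, k ∈ S := by
        intro k
        have h3 : Multiplicative.ofAdd (1 : ℤ) ∈ S := by
          intro b
          change δ 0 (HNNExtension.of (shift A b)) = (δ 0 HNNExtension.t) ^ (1 : ℤ) * _ *
            ((δ 0 HNNExtension.t) ^ (1 : ℤ))⁻¹
          rw [zpow_one, hrel, mul_inv_cancel_right]
        have h4 : k = Multiplicative.ofAdd (1 : ℤ) ^ (Multiplicative.toAdd k) := by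
          rw [← ofAdd_zsmul, smul_eq_mul, mul_one, ofAdd_toAdd]
        rw [h4]
        exact S.zpow_mem h3 _
      intro k
      ext b
      exact hS k b
    let P : WZ A →* D := SemidirectProduct.lift
      ((δ 0).comp (HNNExtension.of (A := lo A 0) (B := up A 0) (φ := sh A 0)))
      (zpowersHom D (δ 0 HNNExtension.t)) hpow
    have hP : ∀ n : ℕ, P.comp (gnP A n) = δ n := by
      intro n
      apply HNNExtension.hom_ext
      · ext b
        change P (gnP A n (HNNExtension.of b)) = δ n (HNNExtension.of b)
        rw [gnP_of, hof n]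
        exact SemidirectProduct.lift_inl _ _ _ _
      · change P (gnP A n HNNExtension.t) = δ n HNNExtension.t
        rw [gnP_t, ht n]
        refine (SemidirectProduct.lift_inr _ _ _ _).trans ?_
        change (δ 0 HNNExtension.t) ^ (1 : ℤ) = _
        rw [zpow_one]
    intro n x hx
    apply h2 n x
    rw [← hP n]
    change P (gnP A n x) = 1
    rw [hx, map_one]

theorem wz_mem (hC : Inherits C) (hE : Extension C) (A : Type) [Group A] (hA : C A) :
    C (WZ A) :=
  hC.colim ℕ (fun n => GN A n) (gnF A) (WZ A) (gnP A) (gn_colim A) (gn_mem hC hE A hA)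

end Pool.Agent.H93.TR
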