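import Pool.Agent.H93.TR.Defs

/-!
# Kernels of homomorphisms to groups in the class: basic properties

Module H93 TR KER (MP_2a547c_gt). Complete proof: `normal`: kernels are normal. `quot`: `QuotientGroup.kerLift` is
injective; use `hC.of_injective` (after `subst`/rewriting with `φ.ker = N`; the instance argument `N.Normal` is a
proposition). `of_quot`: `QuotientGroup.mk' N`. `of_mem`: the identity. `mem_of_bot`: a homomorphism with trivial kernel
is injective. `comap`: compose. `inf`: the homomorphism to `∀ i, A i` (choose the data, `hC.pi`). `inf_two`: `inf` for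
`Bool`, or the product group (embeds in a `pi` over `Bool`). `index`: let `M = N.subgroupOf H`; `G ⧸ N` has the subgroup
`H.map (QuotientGroup.mk' N)` of finite index, which is the range of a homomorphism from `H` with kernel `M`, so it
is in the class by `quot` and `hC.iso`; apply `hC.index` and `of_quot`. `union`: the images of the `T i` in `G ⧸ N` form a
directed family of subgroups with union `G ⧸ N`, each in the class as for `index`; apply `hC.union` and `of_quot`.
-/

set_option autoImplicit false

namespace Pool.Agent.H93.TR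

open Pool.Agent.H98.FJ

namespace IsKer

variable {C : (G : Type) → [Group G] → Prop} {G H : Type} [Group G] [Group H]

theorem normal {N : Subgroup G} (h : IsKer C N) : N.Normal := by
  obtain ⟨A, _, φ, _, rfl⟩ := h
  exact MonoidHom.normal_ker φ

theorem quot (hC : Inherits C) {N : Subgroup G} [N.Normal] (h : IsKer C N) : C (G ⧸ N) := by
  obtain ⟨A, _, φ, hA, rfl⟩ := h
  exact hC.of_injective (QuotientGroup.kerLift φ) (QuotientGroup.kerLift_injective φ) hA

theorem of_quot {N : Subgroup G} [N.Normal] (h : C (G ⧸ N)) : IsKer C N :=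
  ⟨G ⧸ N, inferInstance, QuotientGroup.mk' N, h, QuotientGroup.ker_mk' N⟩

theorem of_mem (h : C G) : IsKer C (⊥ : Subgroup G) :=
  ⟨G, inferInstance, MonoidHom.id G, h, MonoidHom.ker_id⟩

theorem mem_of_bot (hC : Inherits C) (h : IsKer C (⊥ : Subgroup G)) : C G := by
  obtain ⟨A, _, φ, hA, hφ⟩ := h
  exact hC.of_injective φ ((MonoidHom.ker_eq_bot_iff φ).1 hφ) hA

theorem comap {N : Subgroup G} (h : IsKer C N) (ψ : H →* G) : IsKer C (N.comap ψ) := by
  obtain ⟨A, _, φ, hA, rfl⟩ := h
  exact ⟨A, inferInstance, φ.comp ψ, hA, (MonoidHom.comap_ker φ ψ).symm⟩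

theorem inf (hC : Inherits C) {ι : Type} [Finite ι] (N : ι → Subgroup G)
    (h : ∀ i, IsKer C (N i)) : IsKer C (⨅ i, N i) := by
  choose A instA φ hA hφ using h
  refine ⟨∀ i, A i, inferInstance, MonoidHom.pi φ, hC.pi ι inferInstance A hA, ?_⟩
  ext x
  rw [Subgroup.mem_iInf, MonoidHom.mem_ker]
  constructor
  · intro hx i
    rw [← hφ i, MonoidHom.mem_ker]
    exact congrFun hx i
  · intro hx
    funext i
    have := hx i
    rw [← hφ i, MonoidHom.mem_ker] at this
    exact this

theorem inf_two (hC : Inherits C) {N M : Subgroup G} (h : IsKer C N) (h' : IsKer C M) :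
    IsKer C (N ⊓ M) := by
  rw [inf_eq_iInf]
  refine inf hC _ ?_
  intro b
  cases b
  · exact h'
  · exact h

theorem range_mem (hC : Inherits C) {N : Subgroup G} [N.Normal] (K : Subgroup G)
    (h : IsKer C (N.subgroupOf K)) : C ((QuotientGroup.mk' N).comp K.subtype).range := by
  have hk : ((QuotientGroup.mk' N).comp K.subtype).ker = N.subgroupOf K := by
    rw [← MonoidHom.comap_ker, QuotientGroup.ker_mk']
    rfl
  have h1 : IsKer C ((QuotientGroup.mk' N).comp K.subtype).ker := by
    rw [hk]
    exact h
  exact hC.iso _ _ (QuotientGroup.quotientKerEquivRange ((QuotientGroup.mk' N).comp K.subtype))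
    (quot hC h1)

/-- subgroups of finite index -/
theorem index (hC : Inherits C) {N : Subgroup G} (hn : N.Normal) (K : Subgroup G)
    (hK : K.FiniteIndex) (hNK : N ≤ K) (h : IsKer C (N.subgroupOf K)) : IsKer C N := by
  have h1 := range_mem hC K h
  have h2 : ((QuotientGroup.mk' N).comp K.subtype).range.FiniteIndex := by
    constructor
    rw [MonoidHom.range_comp, Subgroup.range_subtype]
    have h3 := Subgroup.index_map_dvd K (QuotientGroup.mk'_surjective N)
    intro h0
    rw [h0, zero_dvd_iff] at h3
    exact hK.index_ne_zero h3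
  exact of_quot (hC.index _ _ h2 h1)

/-- directed unions -/
theorem union (hC : Inherits C) {N : Subgroup G} (hn : N.Normal) {ι : Type} [Preorder ι]
    [IsDirectedOrder ι] [Nonempty ι] (T : ι → Subgroup G) (mono : ∀ i j, i ≤ j → T i ≤ T j)
    (hT : ∀ g : G, ∃ i, g ∈ T i) (h : ∀ i, IsKer C (N.subgroupOf (T i))) : IsKer C N := by
  refine of_quot (hC.union (fun i => ((QuotientGroup.mk' N).comp (T i).subtype).range) ?_ ?_
    (fun i => range_mem hC (T i) (h i)))
  · intro i j hij x hx
    obtain ⟨y, rfl⟩ := hx
    exact ⟨⟨y.1, mono i j hij y.2⟩, rfl⟩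
  · intro g
    obtain ⟨g', rfl⟩ := QuotientGroup.mk'_surjective N g
    obtain ⟨i, hi⟩ := hT g'
    exact ⟨i, ⟨g', hi⟩, rfl⟩

end IsKer

end Pool.Agent.H93.TR
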