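import Pool.Agent.H93.TR.WClaim
import Pool.Agent.H93.TR.KerBasic

/-!
# The family of the subgroups `W`

Module H93 TR WFAM (MP_2a547c_gt). Complete proof. `fam`: `normal`: `hL`; `triv`: `orb_eq_iff`; `le`: `WW_le`; `conj`:
`WW_conj` with `Wq_orb`, `smul_orb`; `fin`: `claimC`. `stab_ker`: let `i = orb L w`, `S = stabilizer G i`, `W = WW L w`,
`W' = W.subgroupOf S`, normal in `S` (`fam.conj`: `g • i = i`). The homomorphism `stabilizer G w → S → S ⧸ W'` (an element
fixing `w` fixes its orbit) is injective: an element of `W` fixing `w` is `1` (`WW_fixed`); it is surjective: for `g ∈ S`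
there is `l ∈ L` with `g • w = l • w`, `l = a b` by `claimA`, and `g = a * (b * l⁻¹ * g)`... precisely
`g = l * (l⁻¹ * g) = a * (b * (l⁻¹ * g))` with `b * (l⁻¹ * g)` fixing `w` and `a ∈ W`. So `S ⧸ W'` is isomorphic to
`stabilizer G w`, which is in the class: `IsKer.of_quot`.
-/

set_option autoImplicit false

namespace Pool.Agent.H93.TR

open Pool.Agent.H98.FJ

variable {C : (G : Type) → [Group G] → Prop} {G V : Type} [Group G] [MulAction G V]

theorem fam {X : SimpleGraph V} (hX : OnTree G X) {N L : Subgroup G} [hL : L.Normal]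
    (hNL : ∀ n ∈ N, ∀ x : V, n • x = x → n ∈ L) (hF : Folds X N L) :
    Fam G (Orb L V) L (Wq L) where
  normal := hL
  triv := by
    intro l hl i
    obtain ⟨v, rfl⟩ := orb_surj L i
    rw [smul_orb]
    exact (orb_eq_iff L _ _).2 ⟨l, hl, rfl⟩
  le := by
    intro i
    obtain ⟨w, rfl⟩ := orb_surj L i
    rw [Wq_orb]
    exact WW_le L w
  conj := by
    intro g i x hx
    obtain ⟨w, rfl⟩ := orb_surj L i
    rw [Wq_orb] at hx
    rw [smul_orb, Wq_orb]
    exact WW_conj L hL g w x hx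
  fin := fun l hl => claimC hX hL hNL hF l hl

theorem stab_ker (hC : Inherits C) {X : SimpleGraph V} (hX : OnTree G X) {N L : Subgroup G}
    [hL : L.Normal] (hNL : ∀ n ∈ N, ∀ x : V, n • x = x → n ∈ L) (hF : Folds X N L)
    (hLe : EdgeFree X L) (hG : ∀ v : V, C (MulAction.stabilizer G v)) (i : Orb L V) :
    IsKer C ((Wq L i).subgroupOf (MulAction.stabilizer G i)) := by
  obtain ⟨w, rfl⟩ := orb_surj L i
  have hn : ((Wq L (orb L w)).subgroupOf (MulAction.stabilizer G (orb L w))).Normal := by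
    refine ⟨fun x hx g => ?_⟩
    rw [Subgroup.mem_subgroupOf] at hx ⊢
    have h1 := (fam hX hNL hF).conj (g : G) (orb L w) x hx
    have h2 : (g : G) • orb L w = orb L w := MulAction.mem_stabilizer_iff.1 g.2
    rw [h2] at h1
    exact h1
  have hle : MulAction.stabilizer G w ≤ MulAction.stabilizer G (orb L w) := by
    intro g hg
    rw [MulAction.mem_stabilizer_iff] at hg ⊢
    rw [smul_orb, hg]
  refine IsKer.of_quot (hC.iso _ _ (MulEquiv.ofBijective
    ((QuotientGroup.mk' ((Wq L (orb L w)).subgroupOf (MulAction.stabilizer G (orb L w)))).comp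
      (Subgroup.inclusion hle)) ⟨?_, ?_⟩) (hG w))
  · rw [injective_iff_map_eq_one]
    intro g hg
    have h1 : Subgroup.inclusion hle g ∈
        (Wq L (orb L w)).subgroupOf (MulAction.stabilizer G (orb L w)) :=
      (QuotientGroup.eq_one_iff _).1 hg
    rw [Subgroup.mem_subgroupOf, Wq_orb] at h1
    exact Subtype.ext (WW_fixed hX L hLe w g h1 (MulAction.mem_stabilizer_iff.1 g.2))
  · intro q
    obtain ⟨s, rfl⟩ := QuotientGroup.mk'_surjective _ q
    have h1 : orb L ((s : G) • w) = orb L w := by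
      rw [← smul_orb]
      exact MulAction.mem_stabilizer_iff.1 s.2
    obtain ⟨l, hl, hlw⟩ := (orb_eq_iff L _ _).1 h1
    obtain ⟨a, ha, b, hb, hbw, hab⟩ := claimA hX hL hNL hF w l hl
    have hbl : a = l * b⁻¹ := by rw [hab, mul_inv_cancel_right]
    have ht : (b * l⁻¹ * (s : G)) • w = w := by
      rw [mul_smul, ← hlw, mul_smul, inv_smul_smul, hbw]
    refine ⟨⟨b * l⁻¹ * (s : G), MulAction.mem_stabilizer_iff.2 ht⟩, ?_⟩
    show QuotientGroup.mk' _ (Subgroup.inclusion hle _) = QuotientGroup.mk' _ s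
    refine (QuotientGroup.eq).2 ?_
    rw [Subgroup.mem_subgroupOf, Wq_orb]
    have h2 : (((Subgroup.inclusion hle ⟨b * l⁻¹ * (s : G), MulAction.mem_stabilizer_iff.2 ht⟩)⁻¹ *
        s : MulAction.stabilizer G (orb L w)) : G) =
        (b * l⁻¹ * (s : G))⁻¹ * a * (b * l⁻¹ * (s : G))⁻¹⁻¹ := by
      show (b * l⁻¹ * (s : G))⁻¹ * (s : G) = _
      rw [hbl]
      group
    rw [h2]
    have h3 := WW_conj L hL (b * l⁻¹ * (s : G))⁻¹ w a ha
    have h4 : (b * l⁻¹ * (s : G))⁻¹ • w = w := by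
      rw [inv_smul_eq_iff, ht]
    rw [h4] at h3
    exact h3

end Pool.Agent.H93.TR
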