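import Pool.Agent.H93.TR.VertexInj
import Pool.Agent.H93.TR.WFam
import Pool.Agent.H93.TR.DMain
import Pool.Agent.H93.TR.Inv
import Pool.Agent.H93.TR.WCol

/-!
# The combination theorem
-/

set_option autoImplicit false

namespace Pool.Agent.H93.TR

open Pool.Agent.H98.FJ

variable {C : (G : Type) → [Group G] → Prop}

theorem NoInv.mono {G V : Type} [Group G] [MulAction G V] {X : SimpleGraph V} {N M : Subgroup G}
    (h : NoInv X N) (hM : M ≤ N) : NoInv X M := fun n hn => h n (hM hn)

/-- the theorem for actions without inversions -/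
theorem main_noInv (hC : Inherits C) (hE : Extension C) {G V Q : Type} [Group G] [Group Q]
    [MulAction G V] {X : SimpleGraph V} (hX : OnTree G X) (hinv : NoInv X (⊤ : Subgroup G))
    (hG : ∀ v : V, C (MulAction.stabilizer G v)) (hQ : C Q) (f : G →* Q)
    (hf : EdgeFree X f.ker) : C G := by
  obtain ⟨L, hL, hLN, hNL, hF⟩ := label hC hE hX f.ker ⟨Q, inferInstance, f, hQ, rfl⟩
    (hinv.mono le_top)
  have hLn : L.Normal := hL.normal
  have hLe : EdgeFree X L := fun n hn => hf n (hLN hn)
  have hfam := fam hX hNL hF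
  have hM : IsKer C (⨅ i, Wq L i : Subgroup G) :=
    fam_ker hC hE (fun A _ hA => wz_mem hC hE A hA) hfam hL (stab_ker hC hX hNL hF hLe hG)
  refine vertex_injective hC hE hX (⨅ i, Wq L i) hM (hinv.mono le_top) ?_
  intro n hn v hv
  have h1 : n ∈ Wq L (orb L v) := (Subgroup.mem_iInf.1 hn) (orb L v)
  rw [Wq_orb] at h1
  exact WW_fixed hX L hLe v n h1 hv

/-- the combination theorem -/
theorem main (hC : Inherits C) (hE : Extension C) {G V Q : Type} [Group G] [Group Q]
    [MulAction G V] {X : SimpleGraph V} (hX : OnTree G X)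
    (hG : ∀ v : V, C (MulAction.stabilizer G v)) (hQ : C Q) (f : G →* Q)
    (hf : EdgeFree X f.ker) : C G := by
  obtain ⟨H, hH, hinv⟩ := exists_noInv hX
  refine hC.index G H hH ?_
  have hXH : OnTree H X := ⟨hX.tree, fun g v w h => hX.adj (g : G) v w h⟩
  refine main_noInv hC hE (V := V) (Q := Q) hXH ?_ ?_ hQ (f.comp H.subtype) ?_
  · rintro ⟨n, hn⟩ _ v w h1 h2 h3
    exact hinv n hn v w h1 h2 h3
  · intro v
    let ψ : MulAction.stabilizer H v →* MulAction.stabilizer G v :=
      { toFun := fun h => ⟨(h.1 : G), h.2⟩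
        map_one' := rfl
        map_mul' := fun _ _ => rfl }
    refine hC.of_injective ψ ?_ (hG v)
    intro a b hab
    have h1 : ((a.1 : H) : G) = b.1 := congrArg (fun z : MulAction.stabilizer G v => (z : G)) hab
    exact Subtype.ext (Subtype.ext h1)
  · rintro ⟨n, hn⟩ hk v w h1 h2 h3
    apply Subtype.ext
    exact hf n hk v w h1 h2 h3

end Pool.Agent.H93.TR
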