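import Pool.Agent.H93.TR.WBasic

/-!
# The claim `L = W_w L_w` and its consequences

Module H93 TR WCLAIM (MP_2a547c_gt). Complete proof.

`claimA`. Strong induction on `X.dist w (l • w)`. If `l • w = w` take `a = 1`, `b = l`. Otherwise the folding property
(`v = w`) gives `u, x, u', k` with `k ∈ N`, `k • x = x`, `k • u = u'`, so `k ∈ L` by `hNL`, and
`d w u + 2 + d u' (l • w) ≤ d w (l • w)`. Let `l' = k⁻¹ * l`. As `k` is an automorphism of the tree it preserves distances
(prove `X.dist (g • v) (g • w) = X.dist v w` first, from `hX.adj` for `g` and `g⁻¹`; e.g. map walks), so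
`d w (l' • w) ≤ d w u + d u (k⁻¹ • l • w) = d w u + d u' (l • w) < d w (l • w)`: by induction `l' = a' b'`. It suffices to
find `k = a b` (`a ∈ WW L w`, `b ∈ L`, `b • w = w`), because `a b a' b' = (a (b a' b⁻¹)) (b b')` and `b a' b⁻¹ ∈ WW L w`
(`WW_conj`, `b • w = w`). If `orb L x ≠ orb L w` then `k` is a generator of `WW L w`. If `orb L x = orb L w` write
`x = l1 • w`, `l1 ∈ L`; `d w (l1 • w) = d w x ≤ d w u + 1 < d w (l • w)`, so by induction `l1 = a1 b1`. Then
`k = l1 y l1⁻¹` with `y = l1⁻¹ k l1 ∈ L` fixing `w`, and with `z = b1 y b1⁻¹` (fixes `w`, in `L`)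
`k = a1 z a1⁻¹ = (a1 (z a1⁻¹ z⁻¹)) z`.

`claimC`. First, `L` is generated by its elements with a fixed point in `V`: let `l ∈ L`, `w` any vertex; `l = a b`, `b` fixes
`w` and `a ∈ WW L w` lies in the closure of elements of `L` with fixed points. So by `Subgroup.closure_induction` it
suffices: if `l ∈ L` fixes `v` then `l ∈ WW L w` whenever `orb L w ≠ orb L v`; the set of exceptions is contained in
`{orb L v}`; for products and inverses the sets of exceptions are contained in the union, resp. equal. Note that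
`{i | l ∉ Wq L i}` is a set of orbits.
-/

set_option autoImplicit false

namespace Pool.Agent.H93.TR

variable {G V : Type} [Group G] [MulAction G V]

theorem dist_smul {X : SimpleGraph V} (hX : OnTree G X) (g : G) (v w : V) :
    X.dist (g • v) (g • w) = X.dist v w := by
  have hle : ∀ (g : G) (v w : V), X.dist (g • v) (g • w) ≤ X.dist v w := by
    intro g v w
    obtain ⟨q, hq⟩ := hX.tree.connected.exists_walk_length_eq_dist v w
    have h1 := SimpleGraph.dist_le (q.map (⟨fun v => g • v, fun h => hX.adj g _ _ h⟩ : X →g X))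
    rw [SimpleGraph.Walk.length_map, hq] at h1
    exact h1
  refine le_antisymm (hle g v w) ?_
  have h1 := hle g⁻¹ (g • v) (g • w)
  rwa [inv_smul_smul, inv_smul_smul] at h1

theorem claimA {X : SimpleGraph V} (hX : OnTree G X) {N L : Subgroup G} (hL : L.Normal)
    (hNL : ∀ n ∈ N, ∀ x : V, n • x = x → n ∈ L) (hF : Folds X N L) (w : V) (l : G) (hl : l ∈ L) :
    ∃ a ∈ WW L w, ∃ b ∈ L, b • w = w ∧ l = a * b := by
  have hconn := hX.tree.connected
  have key : ∀ (n : ℕ) (l : G), l ∈ L → X.dist w (l • w) = n →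
      ∃ a ∈ WW L w, ∃ b ∈ L, b • w = w ∧ l = a * b := by
    intro n
    induction n using Nat.strong_induction_on with
    | _ n ih =>
      intro l hl hn
      by_cases hlw : l • w = w
      · exact ⟨1, one_mem _, l, hl, hlw, (one_mul l).symm⟩
      · obtain ⟨u, x, u', k, hk, hkx, hku, hux, hxu', hd⟩ := hF l hl w hlw
        have hkL : k ∈ L := hNL k hk x hkx
        have hconj : ∀ z ∈ L, z • w = w → ∀ a ∈ WW L w, z * a * z⁻¹ ∈ WW L w := by
          intro z _ hzw a ha
          have h1 := WW_conj L hL z w a ha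
          rwa [hzw] at h1
        have hl' : X.dist w ((k⁻¹ * l) • w) < n := by
          have h1 := hconn.dist_triangle (u := w) (v := u) (w := (k⁻¹ * l) • w)
          have h2 : X.dist u ((k⁻¹ * l) • w) = X.dist u' (l • w) := by
            rw [← dist_smul hX k u, hku, smul_smul, mul_inv_cancel_left]
          omega
        obtain ⟨a', ha', b', hb', hb'w, hab'⟩ := ih _ hl' (k⁻¹ * l) (L.mul_mem (L.inv_mem hkL) hl) rfl
        have hkab : ∃ a ∈ WW L w, ∃ b ∈ L, b • w = w ∧ k = a * b := by
          by_cases hxw : orb L x = orb L w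
          · obtain ⟨l1, hl1, hl1x⟩ := (orb_eq_iff L x w).1 hxw
            have hd1 : X.dist w (l1 • w) < n := by
              rw [hl1x]
              have h1 := hconn.dist_triangle (u := w) (v := u) (w := x)
              have h2 : X.dist u x = 1 := SimpleGraph.dist_eq_one_iff_adj.2 hux
              omega
            obtain ⟨a1, ha1, b1, hb1, hb1w, hab1⟩ := ih _ hd1 l1 hl1 rfl
            have hb1w' : b1⁻¹ • w = w := by
              rw [inv_smul_eq_iff, hb1w]
            obtain ⟨z, hz⟩ : ∃ z, z = b1 * (l1⁻¹ * k * l1) * b1⁻¹ := ⟨_, rfl⟩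
            have hzL : z ∈ L := by
              rw [hz]
              exact L.mul_mem (L.mul_mem hb1 (L.mul_mem (L.mul_mem (L.inv_mem hl1) hkL) hl1))
                (L.inv_mem hb1)
            have hzw : z • w = w := by
              rw [hz, mul_smul, hb1w', mul_smul, mul_smul, mul_smul, hl1x, hkx, ← hl1x,
                inv_smul_smul, hb1w]
            refine ⟨a1 * (z * a1⁻¹ * z⁻¹), mul_mem ha1 (hconj z hzL hzw _ (inv_mem ha1)), z, hzL,
              hzw, ?_⟩
            rw [hz, hab1]
            group
          · exact ⟨k, Subgroup.subset_closure ⟨hkL, x, hkx, hxw⟩, 1, one_mem _, one_smul _ _,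
              (mul_one k).symm⟩
        obtain ⟨a, ha, b, hb, hbw, hab⟩ := hkab
        refine ⟨a * (b * a' * b⁻¹), mul_mem ha (hconj b hb hbw a' ha'), b * b', L.mul_mem hb hb',
          by rw [mul_smul, hb'w, hbw], ?_⟩
        have h3 : l = k * (k⁻¹ * l) := by group
        rw [h3, hab']
        conv_lhs => rw [hab]
        group
  exact key _ l hl rfl

/-- the subgroup `WW L w` as a function of the orbit of `w` -/
noncomputable def Wq (L : Subgroup G) (i : Orb L V) : Subgroup G := WW L (orb_surj L i).choose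

theorem Wq_orb (L : Subgroup G) (w : V) : Wq L (orb L w) = WW L w :=
  WW_orb L (orb_surj L (orb L w)).choose_spec

theorem claimC {X : SimpleGraph V} (hX : OnTree G X) {N L : Subgroup G} (hL : L.Normal)
    (hNL : ∀ n ∈ N, ∀ x : V, n • x = x → n ∈ L) (hF : Folds X N L) (l : G) (hl : l ∈ L) :
    {i : Orb L V | l ∉ Wq L i}.Finite := by
  obtain ⟨w⟩ := hX.tree.connected.nonempty
  have hgen : l ∈ Subgroup.closure {x | x ∈ L ∧ ∃ v : V, x • v = v} := by
    obtain ⟨a, ha, b, hb, hbw, hab⟩ := claimA hX hL hNL hF w l hl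
    rw [hab]
    refine mul_mem ?_ (Subgroup.subset_closure ⟨hb, w, hbw⟩)
    refine Subgroup.closure_mono ?_ ha
    rintro x ⟨hx, v, hv, _⟩
    exact ⟨hx, v, hv⟩
  refine Subgroup.closure_induction (p := fun x _ => {i : Orb L V | x ∉ Wq L i}.Finite)
    ?_ ?_ ?_ ?_ hgen
  · rintro x ⟨hx, v, hv⟩
    refine (Set.finite_singleton (orb L v)).subset ?_
    intro i hi
    by_contra hne
    apply hi
    obtain ⟨u, rfl⟩ := orb_surj L i
    rw [Wq_orb]
    exact Subgroup.subset_closure ⟨hx, v, hv, fun h => hne h.symm⟩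
  · refine Set.finite_empty.subset ?_
    intro i hi
    exact absurd (one_mem _) hi
  · intro x y _ _ hx hy
    refine (hx.union hy).subset ?_
    intro i hi
    by_contra hne
    rw [Set.mem_union, not_or] at hne
    apply hi
    exact mul_mem (not_not.1 hne.1) (not_not.1 hne.2)
  · intro x _ hx
    refine hx.subset ?_
    intro i hi h
    exact hi (inv_mem h)

end Pool.Agent.H93.TR
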