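import Pool.Agent.H98.FJ.P.Ext

/-!
# Groups acting on trees and classes of groups with inheritance properties: definitions
-/

set_option autoImplicit false

namespace Pool.Agent.H93.TR

open Pool.Agent.H98.FJ

/-- `N` is the kernel of a homomorphism to a group in the class -/
def IsKer (C : (G : Type) → [Group G] → Prop) {G : Type} [Group G] (N : Subgroup G) : Prop :=
  ∃ (A : Type) (_ : Group A) (φ : G →* A), C A ∧ φ.ker = N

/-- the group `G` acts on the vertices of the tree `X` by automorphisms of `X` -/
structure OnTree (G : Type) [Group G] {V : Type} [MulAction G V] (X : SimpleGraph V) : Prop where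
  tree : X.IsTree
  adj : ∀ (g : G) (v w : V), X.Adj v w → X.Adj (g • v) (g • w)

/-- no element of the subgroup inverts an edge -/
def NoInv {G : Type} [Group G] {V : Type} [MulAction G V] (X : SimpleGraph V) (N : Subgroup G) :
    Prop :=
  ∀ n ∈ N, ∀ v w : V, X.Adj v w → n • v = w → n • w = v → False

/-- the elements of `N` which fix an edge are trivial -/
def EdgeFree {G : Type} [Group G] {V : Type} [MulAction G V] (X : SimpleGraph V)
    (N : Subgroup G) : Prop :=
  ∀ n ∈ N, ∀ v w : V, X.Adj v w → n • v = v → n • w = w → n = 1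

/-- the elements of `N` which fix a vertex are trivial -/
def VertexFree {G : Type} [Group G] (V : Type) [MulAction G V] (N : Subgroup G) : Prop :=
  ∀ n ∈ N, ∀ v : V, n • v = v → n = 1

/-- The folding property of a subgroup `L` of `N`: if `l ∈ L` moves `v` then on a geodesic from `v` to `l • v` there are
three consecutive vertices `u, x, u'` such that an element of `N` fixes `x` and maps `u` to `u'`. -/
def Folds {G : Type} [Group G] {V : Type} [MulAction G V] (X : SimpleGraph V) (N L : Subgroup G) :
    Prop :=
  ∀ l ∈ L, ∀ v : V, l • v ≠ v → ∃ (u x u' : V) (n : G), n ∈ N ∧ n • x = x ∧ n • u = u' ∧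
    X.Adj u x ∧ X.Adj x u' ∧ X.dist v u + 2 + X.dist u' (l • v) ≤ X.dist v (l • v)

/-- the set of orbits of a subgroup -/
def Orb {G : Type} [Group G] (L : Subgroup G) (V : Type) [MulAction G V] : Type :=
  Quotient (MulAction.orbitRel L V)

/-- the orbit of a point -/
def orb {G : Type} [Group G] (L : Subgroup G) {V : Type} [MulAction G V] (v : V) : Orb L V :=
  Quotient.mk (MulAction.orbitRel L V) v

theorem orb_eq_iff {G : Type} [Group G] (L : Subgroup G) {V : Type} [MulAction G V] (v w : V) :
    orb L v = orb L w ↔ ∃ l ∈ L, l • w = v := by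
  constructor
  · intro h
    obtain ⟨⟨l, hl⟩, h2⟩ := Quotient.exact h
    exact ⟨l, hl, h2⟩
  · rintro ⟨l, hl, h2⟩
    exact Quotient.sound ⟨⟨l, hl⟩, h2⟩

theorem orb_surj {G : Type} [Group G] (L : Subgroup G) {V : Type} [MulAction G V]
    (i : Orb L V) : ∃ v, orb L v = i :=
  Quotient.exists_rep i

instance instOrb {G : Type} [Group G] (L : Subgroup G) [hL : L.Normal] (V : Type)
    [MulAction G V] : MulAction G (Orb L V) where
  smul g := Quotient.map (g • ·) (by
    rintro a b ⟨⟨l, hl⟩, h⟩
    refine ⟨⟨g * l * g⁻¹, hL.conj_mem l hl g⟩, ?_⟩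
    change (g * l * g⁻¹) • g • b = g • a
    change l • b = a at h
    rw [smul_smul, inv_mul_cancel_right, mul_smul, h])
  one_smul i := by
    obtain ⟨v, rfl⟩ := Quotient.exists_rep i
    change Quotient.mk _ ((1 : G) • v) = _
    rw [one_smul]
  mul_smul g h i := by
    obtain ⟨v, rfl⟩ := Quotient.exists_rep i
    change Quotient.mk _ ((g * h) • v) = Quotient.mk _ (g • h • v)
    rw [mul_smul]

theorem smul_orb {G : Type} [Group G] (L : Subgroup G) [L.Normal] {V : Type} [MulAction G V]
    (g : G) (v : V) : g • orb L v = orb L (g • v) := rfl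

/-- the subgroup generated by the elements of `L` which fix a vertex outside the `L`-orbit of `w` -/
def WW {G : Type} [Group G] {V : Type} [MulAction G V] (L : Subgroup G) (w : V) : Subgroup G :=
  Subgroup.closure {x | x ∈ L ∧ ∃ v : V, x • v = v ∧ orb L v ≠ orb L w}

/-- A normal subgroup `L` and a family of subgroups of `L` which are permuted by conjugation. -/
structure Fam (G I : Type) [Group G] [MulAction G I] (L : Subgroup G) (W : I → Subgroup G) :
    Prop where
  normal : L.Normal
  triv : ∀ l ∈ L, ∀ i : I, l • i = i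
  le : ∀ i, W i ≤ L
  conj : ∀ (g : G) (i : I) (x : G), x ∈ W i → g * x * g⁻¹ ∈ W (g • i)
  fin : ∀ l ∈ L, {i | l ∉ W i}.Finite

/-- the group of the functions `ℤ → A` with finite support -/
def FS (A : Type) [Group A] : Subgroup (ℤ → A) where
  carrier := {b | {k | b k ≠ 1}.Finite}
  one_mem' := by simp
  mul_mem' := by
    intro a b ha hb
    refine (Set.Finite.union ha hb).subset ?_
    intro k hk
    by_contra h
    simp only [Set.mem_union, Set.mem_ofPred_eq, not_or, not_not] at h
    exact hk (by rw [Pi.mul_apply, h.1, h.2, mul_one])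
  inv_mem' := by
    intro a ha
    refine Set.Finite.subset ha ?_
    intro k hk h
    exact hk (by rw [Pi.inv_apply, h, inv_one])

theorem mem_FS {A : Type} [Group A] {b : ℤ → A} : b ∈ FS A ↔ {k | b k ≠ 1}.Finite := Iff.rfl

/-- the permutation of the coordinates -/
def perm (A : Type) [Group A] : Equiv.Perm ℤ →* MulAut (FS A) where
  toFun σ :=
    { toFun := fun b => ⟨fun k => b.1 (σ⁻¹ k), by
        rw [mem_FS]
        refine (Set.Finite.image σ (mem_FS.1 b.2)).subset ?_
        intro k hk
        exact ⟨σ⁻¹ k, hk, by simp⟩⟩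
      invFun := fun b => ⟨fun k => b.1 (σ k), by
        rw [mem_FS]
        refine (Set.Finite.image (σ⁻¹ : Equiv.Perm ℤ) (mem_FS.1 b.2)).subset ?_
        intro k hk
        exact ⟨σ k, hk, by simp⟩⟩
      left_inv := fun b => by
        apply Subtype.ext
        funext k
        simp
      right_inv := fun b => by
        apply Subtype.ext
        funext k
        simp
      map_mul' := fun a b => rfl }
  map_one' := rfl
  map_mul' σ τ := by
    ext b k
    simp [mul_inv_rev]

theorem perm_apply {A : Type} [Group A] (σ : Equiv.Perm ℤ) (b : FS A) (k : ℤ) :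
    (perm A σ b).1 k = b.1 (σ⁻¹ k) := rfl

/-- the translations of `ℤ` -/
def trans : Multiplicative ℤ →* Equiv.Perm ℤ where
  toFun n := Equiv.addLeft (Multiplicative.toAdd n)
  map_one' := by
    ext k
    simp
  map_mul' a b := by
    ext k
    simp

theorem trans_apply (n : Multiplicative ℤ) (k : ℤ) : trans n k = Multiplicative.toAdd n + k := rfl

/-- the restricted wreath product of `A` with the infinite cyclic group -/
abbrev WZ (A : Type) [Group A] : Type := FS A ⋊[(perm A).comp trans] Multiplicative ℤ

end Pool.Agent.H93.TR
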