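import Pool.Agent.H93.TR.Defs

/-!
# Potentials on trees

Module H93 TR POT (MP_2a547c_gt). Mathlib only. Complete proof.

`exists_potential`: choose a vertex `r` (a tree is connected, hence nonempty). For a walk `p` let `val p` be the product
of the `l v w` over its steps (recursion: `val nil = 1`, `val (cons (h : Adj u v) p) = l u v * val p`); then
`val (p.append q) = val p * val q`. Let `h v` be the value of the unique path from `r` to `v`
(`SimpleGraph.IsTree.existsUnique_path`). Let `v, w` be adjacent. If the path from `r` to `v` does not pass through `w`
then its extension by `w` is the path to `w` and `h w = h v * l v w`. If it passes through `w` then `v` is not on the path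
from `r` to `w` (uniqueness of paths: the path to `v` is the path to `w` followed by a path from `w` to `v`, which is the
edge by uniqueness), so `h v = h w * l w v`, and `h w = h v * l v w` by `hl`. (Alternative: show by induction on the length
that the value of a closed walk is `1`, or use a well chosen induction principle; any proof is fine.)

`potential_unique`: `h' v * (h v)⁻¹` does not change along edges, hence is constant (induction on a walk).
-/

set_option autoImplicit false

namespace Pool.Agent.H93.TR

/-- the product of the labels of a walk -/
def potVal {V A : Type} [Group A] {X : SimpleGraph V} (l : V → V → A) :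
    {u v : V} → X.Walk u v → A
  | _, _, SimpleGraph.Walk.nil => 1
  | _, _, @SimpleGraph.Walk.cons _ _ u v _ _ p => l u v * potVal l p

theorem potVal_append {V A : Type} [Group A] {X : SimpleGraph V} (l : V → V → A) {u v w : V}
    (p : X.Walk u v) (q : X.Walk v w) : potVal l (p.append q) = potVal l p * potVal l q := by
  induction p with
  | nil =>
    rw [SimpleGraph.Walk.nil_append, potVal, one_mul]
  | cons h p ih =>
    rw [SimpleGraph.Walk.cons_append, potVal, potVal, ih, mul_assoc]

theorem potVal_edge {V A : Type} [Group A] {X : SimpleGraph V} (l : V → V → A) {u v : V}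
    (h : X.Adj u v) : potVal l h.toWalk = l u v := by
  unfold SimpleGraph.Adj.toWalk
  rw [potVal, potVal, mul_one]

theorem exists_potential {V A : Type} [Group A] {X : SimpleGraph V} (hX : X.IsTree)
    (l : V → V → A) (hl : ∀ v w, X.Adj v w → l v w * l w v = 1) :
    ∃ h : V → A, ∀ v w, X.Adj v w → h w = h v * l v w := by
  classical
  obtain ⟨r⟩ := hX.connected.nonempty
  have hex : ∀ u v, ∃! p : X.Walk u v, p.IsPath := hX.existsUnique_path
  choose P hP hPu using fun v => hex r v
  refine ⟨fun v => potVal l (P v), fun v w hvw => ?_⟩
  by_cases hw : w ∈ (P v).support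
  · have h1 : (P v).takeUntil w hw = P w := hPu w _ ((hP v).takeUntil hw)
    have h2 : (P v).dropUntil w hw = hvw.symm.toWalk :=
      (hex w v).unique ((hP v).dropUntil hw) (SimpleGraph.Walk.IsPath.of_adj hvw.symm)
    have h3 := (P v).take_spec hw
    rw [h1, h2] at h3
    have h4 : potVal l (P v) = potVal l (P w) * l w v := by
      conv_lhs => rw [← h3]
      rw [potVal_append, potVal_edge]
    show potVal l (P w) = potVal l (P v) * l v w
    have h5 : l w v * l v w = 1 := hl w v hvw.symm
    rw [h4, mul_assoc, h5, mul_one]
  · have h1 : (P v).concat hvw = P w := hPu w _ ((hP v).concat hw hvw)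
    show potVal l (P w) = potVal l (P v) * l v w
    rw [← h1, SimpleGraph.Walk.concat_eq_append, potVal_append]
    congr 1
    exact potVal_edge l hvw

theorem potential_unique {V A : Type} [Group A] {X : SimpleGraph V} (hX : X.Connected)
    (h h' : V → A) (hh : ∀ v w, X.Adj v w → (h v)⁻¹ * h w = (h' v)⁻¹ * h' w) :
    ∃ a : A, ∀ v, h' v = a * h v := by
  obtain ⟨r⟩ := hX.nonempty
  have key : ∀ (u v : V) (p : X.Walk u v), h' u * (h u)⁻¹ = h' v * (h v)⁻¹ := by
    intro u v p
    induction p with
    | nil => rfl
    | cons hadj p ih =>
      rename_i u v w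
      rw [← ih]
      have h1 := hh u v hadj
      have h2 : h' v = h' u * (h u)⁻¹ * h v := by
        rw [mul_assoc, h1, mul_inv_cancel_left]
      rw [h2, mul_inv_cancel_right]
  refine ⟨h' r * (h r)⁻¹, fun v => ?_⟩
  obtain ⟨p⟩ := hX.preconnected r v
  rw [key r v p, inv_mul_cancel_right]

end Pool.Agent.H93.TR
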