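import Pool.Agent.H93.TR.Defs

/-!
# Folding

Module H93 TR FOLD (MP_2a547c_gt). Mathlib only. Complete proof.

For a walk `p` from `v` to `w` define the list `lab p : List (Ω × Bool)` by recursion: `lab nil = []` and, for
`e : X.Adj u u'`, `lab (cons e p) = (q u u', true) :: (q u' u, false) :: lab p`. By `hh` and induction
`(h v)⁻¹ * h w = FreeGroup.mk (lab p)`.
Claim: either `lab p` is reduced (`FreeGroup.IsReduced`: no two consecutive entries `(a, b), (a, !b)`) or there are
`u, x, u'` and walks `p1 : v → u`, `p2 : u' → w` with `X.Adj u x`, `X.Adj x u'`, `q x u = q x u'` and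
`p1.length + 2 + p2.length = p.length`. Induction on `p`: `nil`: reduced. `cons (e : Adj v y) p'`: if the second
alternative holds for `p'` then extend `p1` by `e`. Otherwise `lab p'` is reduced. The entries `(q v y, true)`,
`(q y v, false)` do not cancel by `hq`. If `p' = nil` the list is reduced. If `p' = cons (e' : Adj y z) p''` the only other
possible cancellation is between `(q y v, false)` and `(q y z, true)`, i.e. `q y v = q y z`: then `u = v`, `x = y`,
`u' = z`, `p1 = nil`, `p2 = p''`.
For `fold`: take a walk `p` from `v` to `w` of length `X.dist v w` (`SimpleGraph.Connected.exists_walk_length_eq_dist`). As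
`v ≠ w`, `lab p` is not empty; as `h v = h w`, `FreeGroup.mk (lab p) = 1`, so `lab p` is not reduced (a reduced list
representing `1` is empty, `FreeGroup.IsReduced` and `FreeGroup.toWord`/`FreeGroup.reduce`), and
`X.dist v u ≤ p1.length`, `X.dist u' w ≤ p2.length` (`SimpleGraph.dist_le`).
-/

set_option autoImplicit false

namespace Pool.Agent.H93.TR

/-- the word of a walk -/
def lab {V Ω : Type} {X : SimpleGraph V} (q : V → V → Ω) :
    {v w : V} → X.Walk v w → List (Ω × Bool)
  | _, _, .nil => []
  | u, _, .cons (v := u') _ p => (q u u', true) :: (q u' u, false) :: lab q p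

theorem lab_nil {V Ω : Type} {X : SimpleGraph V} (q : V → V → Ω) (v : V) :
    lab q (SimpleGraph.Walk.nil : X.Walk v v) = [] := rfl

theorem lab_cons {V Ω : Type} {X : SimpleGraph V} (q : V → V → Ω) {u u' w : V} (e : X.Adj u u')
    (p : X.Walk u' w) :
    lab q (SimpleGraph.Walk.cons e p) = (q u u', true) :: (q u' u, false) :: lab q p := rfl

theorem lab_mk {V Ω : Type} {X : SimpleGraph V} (q : V → V → Ω) (h : V → FreeGroup Ω)
    (hh : ∀ v w, X.Adj v w →
      h w = h v * (FreeGroup.of (q v w) * (FreeGroup.of (q w v))⁻¹)) {v w : V}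
    (p : X.Walk v w) : (h v)⁻¹ * h w = FreeGroup.mk (lab q p) := by
  induction p with
  | nil => rw [lab_nil, inv_mul_cancel]; rfl
  | @cons v y w e p ih =>
    have h1 : (h v)⁻¹ * h w = ((h v)⁻¹ * h y) * ((h y)⁻¹ * h w) := by group
    rw [h1, ih, hh v y e, inv_mul_cancel_left]
    rfl

theorem lab_alt {V Ω : Type} {X : SimpleGraph V} (q : V → V → Ω)
    (hq : ∀ v w, X.Adj v w → q v w ≠ q w v) {v w : V} (p : X.Walk v w) :
    FreeGroup.IsReduced (lab q p) ∨ ∃ (u x u' : V) (p1 : X.Walk v u) (p2 : X.Walk u' w),
      X.Adj u x ∧ X.Adj x u' ∧ q x u = q x u' ∧ p1.length + 2 + p2.length = p.length := by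
  induction p with
  | nil => exact Or.inl FreeGroup.IsReduced.nil
  | @cons v y w e p ih =>
    rcases ih with ih | ⟨u, x, u', p1, p2, h1, h2, h3, h4⟩
    · cases p with
      | nil =>
        left
        rw [lab_cons, lab_nil, FreeGroup.isReduced_cons_cons]
        exact ⟨fun h => absurd h (hq _ _ e), FreeGroup.IsReduced.singleton⟩
      | @cons _ z _ e' p'' =>
        by_cases hc : q y v = q y z
        · right
          exact ⟨v, y, z, SimpleGraph.Walk.nil, p'', e, e', hc, by
            simp only [SimpleGraph.Walk.length_nil, SimpleGraph.Walk.length_cons]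
            ring⟩
        · left
          rw [lab_cons, FreeGroup.isReduced_cons_cons]
          refine ⟨fun h => absurd h (hq _ _ e), ?_⟩
          rw [lab_cons, FreeGroup.isReduced_cons_cons]
          exact ⟨fun h => absurd h hc, by rw [← lab_cons q e']; exact ih⟩
    · right
      refine ⟨u, x, u', SimpleGraph.Walk.cons e p1, p2, h1, h2, h3, ?_⟩
      simp only [SimpleGraph.Walk.length_cons]
      omega

theorem fold {V Ω : Type} {X : SimpleGraph V} (hX : X.Connected) (q : V → V → Ω)
    (hq : ∀ v w, X.Adj v w → q v w ≠ q w v) (h : V → FreeGroup Ω)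
    (hh : ∀ v w, X.Adj v w →
      h w = h v * (FreeGroup.of (q v w) * (FreeGroup.of (q w v))⁻¹)) {v w : V} (hne : v ≠ w)
    (hvw : h v = h w) :
    ∃ u x u', X.Adj u x ∧ X.Adj x u' ∧ q x u = q x u' ∧
      X.dist v u + 2 + X.dist u' w ≤ X.dist v w := by
  classical
  obtain ⟨p, hp⟩ := hX.exists_walk_length_eq_dist v w
  rcases lab_alt q hq p with hr | ⟨u, x, u', p1, p2, h1, h2, h3, h4⟩
  · exfalso
    have h1 : FreeGroup.mk (lab q p) = FreeGroup.mk [] := by
      rw [← lab_mk q h hh p, hvw, inv_mul_cancel]
      rfl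
    have h2 := FreeGroup.reduce.sound h1
    rw [hr.reduce_eq] at h2
    cases p with
    | nil => exact hne rfl
    | cons e p =>
      rw [lab_cons] at h2
      exact absurd h2 (by simp)
  · refine ⟨u, x, u', h1, h2, h3, ?_⟩
    rw [← hp, ← h4]
    have h5 := SimpleGraph.dist_le p1
    have h6 := SimpleGraph.dist_le p2
    omega

end Pool.Agent.H93.TR
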