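import Pool.Agent.H93.TR.Defs

/-!
# HNN extensions which approximate the restricted wreath product with the integers
-/

set_option autoImplicit false

namespace Pool.Agent.H93.TR

/-- the functions with support in `[-n, n - 1]` -/
def lo (A : Type) [Group A] (n : ℕ) : Subgroup (FS A) where
  carrier := {b | ∀ k : ℤ, b.1 k ≠ 1 → -(n : ℤ) ≤ k ∧ k < n}
  one_mem' := fun k hk => absurd rfl hk
  mul_mem' := by
    intro a b ha hb k hk
    by_contra h
    have h1 : a.1 k = 1 := by
      by_contra h1
      exact h (ha k h1)
    have h2 : b.1 k = 1 := by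
      by_contra h2
      exact h (hb k h2)
    apply hk
    change a.1 k * b.1 k = 1
    rw [h1, h2, mul_one]
  inv_mem' := by
    intro a ha k hk
    apply ha k
    intro h
    apply hk
    change (a.1 k)⁻¹ = 1
    rw [h, inv_one]

/-- the functions with support in `[-n + 1, n]` -/
def up (A : Type) [Group A] (n : ℕ) : Subgroup (FS A) where
  carrier := {b | ∀ k : ℤ, b.1 k ≠ 1 → -(n : ℤ) < k ∧ k ≤ n}
  one_mem' := fun k hk => absurd rfl hk
  mul_mem' := by
    intro a b ha hb k hk
    by_contra h
    have h1 : a.1 k = 1 := by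
      by_contra h1
      exact h (ha k h1)
    have h2 : b.1 k = 1 := by
      by_contra h2
      exact h (hb k h2)
    apply hk
    change a.1 k * b.1 k = 1
    rw [h1, h2, mul_one]
  inv_mem' := by
    intro a ha k hk
    apply ha k
    intro h
    apply hk
    change (a.1 k)⁻¹ = 1
    rw [h, inv_one]

theorem mem_lo {A : Type} [Group A] {n : ℕ} {b : FS A} :
    b ∈ lo A n ↔ ∀ k : ℤ, b.1 k ≠ 1 → -(n : ℤ) ≤ k ∧ k < n := Iff.rfl

theorem mem_up {A : Type} [Group A] {n : ℕ} {b : FS A} :
    b ∈ up A n ↔ ∀ k : ℤ, b.1 k ≠ 1 → -(n : ℤ) < k ∧ k ≤ n := Iff.rfl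

/-- the shift by `1` -/
def shift (A : Type) [Group A] : MulAut (FS A) := perm A (trans (Multiplicative.ofAdd 1))

theorem shift_apply {A : Type} [Group A] (b : FS A) (k : ℤ) :
    (shift A b).1 k = b.1 (k - 1) := by
  rw [shift, perm_apply, ← map_inv, trans_apply, toAdd_inv, toAdd_ofAdd, neg_add_eq_sub]

theorem shift_symm_apply {A : Type} [Group A] (b : FS A) (k : ℤ) :
    ((shift A).symm b).1 k = b.1 (k + 1) := by
  have h := shift_apply ((shift A).symm b) (k + 1)
  rw [MulEquiv.apply_symm_apply, add_sub_cancel_right] at h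
  exact h.symm

/-- the shift as an isomorphism between the associated subgroups -/
def sh (A : Type) [Group A] (n : ℕ) : lo A n ≃* up A n where
  toFun b := ⟨shift A b.1, by
    rw [mem_up]
    intro k hk
    rw [shift_apply] at hk
    have := b.2 (k - 1) hk
    omega⟩
  invFun b := ⟨(shift A).symm b.1, by
    rw [mem_lo]
    intro k hk
    rw [shift_symm_apply] at hk
    have := b.2 (k + 1) hk
    omega⟩
  left_inv b := by
    apply Subtype.ext
    change (shift A).symm (shift A b.1) = b.1
    rw [MulEquiv.symm_apply_apply]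
  right_inv b := by
    apply Subtype.ext
    change shift A ((shift A).symm b.1) = b.1
    rw [MulEquiv.apply_symm_apply]
  map_mul' a b := by
    apply Subtype.ext
    change shift A (a.1 * b.1) = shift A a.1 * shift A b.1
    rw [map_mul]

theorem sh_apply {A : Type} [Group A] (n : ℕ) (b : lo A n) :
    ((sh A n b : up A n) : FS A) = shift A b.1 := rfl

/-- the HNN extension of the finitely supported functions in which the stable letter shifts the functions with support
in `[-n, n - 1]` -/
abbrev GN (A : Type) [Group A] (n : ℕ) : Type := HNNExtension (FS A) (lo A n) (up A n) (sh A n)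

end Pool.Agent.H93.TR
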