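import Pool.Agent.H93.TR.Defs

/-!
# HNN extensions on which a homomorphism to a group in the class is injective on the base

Module H93 TR HNN (MP_2a547c_gt). Complete proof. Let `f0 = f.comp HNNExtension.of` (injective), `C1 = B1.map f0 ≤ Q`,
`Ω = Q ⧸ C1` with the action `σ = MulAction.toPermHom Q (Q ⧸ C1)`, `S = FreeGroup Ω ⋊[permAct σ] Q`, in the class by
`semidirect_mem hC hE σ hQ`. Let `τ = f t` and `e = SemidirectProduct.inl (FreeGroup.of (1 : Q ⧸ C1))`; `e` commutes with
`inr c`, `c ∈ C1` (`permAct_of`, `SemidirectProduct.inl_aut`). So there is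
`α = HNNExtension.lift (inr.comp f0) (inr τ * e) _ : HNNExtension B B1 B2 φ →* S` (relation:
`inr τ * e * inr (f0 a) = inr (τ * f0 a) * e = inr (f0 (φ a)) * (inr τ * e)`, from `f (t * of a) = f (of (φ a) * t)`,
`HNNExtension.t_mul_of`). We show that `α` is injective and use `hC.of_injective`.
Every element is `w.prod φ = of w.head * (w.toList.map (fun x => t ^ (x.1 : ℤ) * of x.2)).prod` for a reduced word `w`
(`HNNExtension.NormalWord.exists_normalWord_prod_eq` or `NormalWord.equiv` with a transversal pair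
`TransversalPair.nonempty`; a normal word is a reduced word: consecutive entries `(u, g), (u', g')` satisfy
`g ∈ toSubgroup B1 B2 u → u = u'`). Claim: for `q : Q` and a list `l` with this property
`(inr q * α-image of l).left = FreeGroup.mk (labels q l)`, where `labels q [] = []` and
`labels q ((u, g) :: l) = (y, decide (u = 1)) :: labels (q * τ ^ (u : ℤ) * f0 g) l`, `y = (q * τ : Q ⧸ C1)` if `u = 1`,
`y = (q : Q ⧸ C1)` if `u = -1` (because `inr τ * e = inl (of τC1) * inr τ` and `(inr τ * e)⁻¹ = e⁻¹ * inr τ⁻¹`).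
The list `labels q l` is reduced (`FreeGroup.IsReduced`): if consecutive entries have the same letter and opposite signs:
`u = 1, u' = -1`: `q τ C1 = q τ (f0 g) C1`, so `f0 g ∈ C1`, `g ∈ B1` (injectivity of `f0`), and `u = u'` by the chain
condition, a contradiction; `u = -1, u' = 1`: `q C1 = q τ⁻¹ (f0 g) τ C1`, so `τ⁻¹ (f0 g) τ ∈ C1`, i.e.
`f0 g = τ c τ⁻¹ = f0 (φ a)` for some `a ∈ B1` (`f0 (φ a) = τ * f0 a * τ⁻¹`), so `g ∈ B2`, again a contradiction. So if
`α (w.prod φ) = 1` the reduced list `labels (f0 w.head) w.toList` represents `1`, hence it is empty, `w.toList = []`,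
`w.prod φ = of w.head` and `f0 w.head = 1`, so `w.head = 1`.
-/

set_option autoImplicit false

namespace Pool.Agent.H93.TR

open Pool.Agent.H98.FJ

variable {C : (G : Type) → [Group G] → Prop}

section words

variable {B Q : Type} [Group B] [Group Q]

/-- the free group element attached to a word in the HNN extension, as a list -/
def hnnLab (C1 : Subgroup Q) (τ : Q) (f0 : B →* Q) : Q → List (ℤˣ × B) → List ((Q ⧸ C1) × Bool)
  | _, [] => []
  | q, (x :: l) =>
    ((if x.1 = 1 then ((q * τ : Q) : Q ⧸ C1) else (q : Q ⧸ C1)), decide (x.1 = 1)) ::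
      hnnLab C1 τ f0 (q * τ ^ (x.1 : ℤ) * f0 x.2) l

/-- the semidirect product -/
abbrev HS (Q : Type) [Group Q] (C1 : Subgroup Q) : Type :=
  FreeGroup (Q ⧸ C1) ⋊[permAct (MulAction.toPermHom Q (Q ⧸ C1))] Q

/-- the letter of the coset of `q` -/
def hl {Q : Type} [Group Q] (C1 : Subgroup Q) (q : Q) : HS Q C1 :=
  SemidirectProduct.inl (FreeGroup.of (q : Q ⧸ C1))

theorem inr_hl (C1 : Subgroup Q) (q q' : Q) :
    (SemidirectProduct.inr q : HS Q C1) * hl C1 q' = hl C1 (q * q') * SemidirectProduct.inr q := by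
  have h := SemidirectProduct.inl_aut (φ := permAct (MulAction.toPermHom Q (Q ⧸ C1))) q
    (FreeGroup.of ((q' : Q) : Q ⧸ C1))
  rw [permAct_of] at h
  have h2 : (MulAction.toPermHom Q (Q ⧸ C1)) q ((q' : Q) : Q ⧸ C1) = ((q * q' : Q) : Q ⧸ C1) := rfl
  rw [h2] at h
  unfold hl
  rw [h, inv_eq_one_div, mul_assoc, ← map_mul]
  simp

theorem hnn_step (C1 : Subgroup Q) (τ : Q) (q : Q) (u : ℤˣ) :
    (SemidirectProduct.inr q : HS Q C1) *
      (SemidirectProduct.inr τ * hl C1 1) ^ (u : ℤ) =
    SemidirectProduct.inl (FreeGroup.mk [((if u = 1 then ((q * τ : Q) : Q ⧸ C1)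
      else (q : Q ⧸ C1)), decide (u = 1))]) * SemidirectProduct.inr (q * τ ^ (u : ℤ)) := by
  rcases Int.units_eq_one_or u with h | h
  · subst h
    rw [Units.val_one, zpow_one, zpow_one, if_pos rfl, ← mul_assoc, ← map_mul, inr_hl, mul_one]
    rfl
  · subst h
    have hne : ¬ ((-1 : ℤˣ) = 1) := by decide
    have hd : decide ((-1 : ℤˣ) = 1) = false := by decide
    rw [if_neg hne, hd, Units.val_neg, Units.val_one, zpow_neg_one, zpow_neg_one, mul_inv_rev]
    have h1 : (FreeGroup.mk [((q : Q ⧸ C1), false)] : FreeGroup (Q ⧸ C1)) =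
        (FreeGroup.of (q : Q ⧸ C1))⁻¹ := rfl
    rw [h1, map_inv, ← mul_assoc, map_mul, ← mul_assoc, map_inv]
    congr 1
    have h2 := inr_hl C1 q 1
    rw [mul_one] at h2
    have h3 : (SemidirectProduct.inl (FreeGroup.of (q : Q ⧸ C1)) : HS Q C1) = hl C1 q := rfl
    rw [h3, mul_inv_eq_iff_eq_mul, mul_assoc, h2, inv_mul_cancel_left]

theorem hnn_word (C1 : Subgroup Q) (τ : Q) (f0 : B →* Q) (l : List (ℤˣ × B)) (q : Q) :
    ∃ r : Q, (SemidirectProduct.inr q : HS Q C1) *
      (l.map (fun x => (SemidirectProduct.inr τ * hl C1 1) ^ (x.1 : ℤ) *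
        (SemidirectProduct.inr (f0 x.2) : HS Q C1))).prod =
      SemidirectProduct.inl (FreeGroup.mk (hnnLab C1 τ f0 q l)) * SemidirectProduct.inr r := by
  induction l generalizing q with
  | nil =>
    refine ⟨q, ?_⟩
    rw [List.map_nil, List.prod_nil, mul_one, hnnLab]
    have h1 : (FreeGroup.mk [] : FreeGroup (Q ⧸ C1)) = 1 := rfl
    rw [h1, map_one, one_mul]
  | cons x l ih =>
    obtain ⟨r, hr⟩ := ih (q * τ ^ (x.1 : ℤ) * f0 x.2)
    refine ⟨r, ?_⟩
    rw [List.map_cons, List.prod_cons, hnnLab, ← mul_assoc, ← mul_assoc, hnn_step]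
    rw [mul_assoc (SemidirectProduct.inl _), ← map_mul, mul_assoc (SemidirectProduct.inl _), hr,
      ← mul_assoc, ← map_mul, FreeGroup.mul_mk]
    rfl

theorem hnnLab_reduced (B1 B2 : Subgroup B) (C1 : Subgroup Q) (τ : Q) (f0 : B →* Q)
    (h1 : ∀ g, f0 g ∈ C1 → g ∈ B1) (h2 : ∀ g, τ⁻¹ * f0 g * τ ∈ C1 → g ∈ B2)
    (l : List (ℤˣ × B))
    (hl : l.IsChain (fun a b => a.2 ∈ HNNExtension.toSubgroup B1 B2 a.1 → a.1 = b.1)) (q : Q) :
    FreeGroup.IsReduced (hnnLab C1 τ f0 q l) := by
  induction l generalizing q with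
  | nil => exact FreeGroup.IsReduced.nil
  | cons x l ih =>
    cases l with
    | nil => exact FreeGroup.IsReduced.singleton
    | cons y l =>
      rw [List.isChain_cons_cons] at hl
      have h3 := ih hl.2 (q * τ ^ (x.1 : ℤ) * f0 x.2)
      rw [hnnLab, hnnLab]
      rw [hnnLab] at h3
      rw [FreeGroup.isReduced_cons_cons]
      refine ⟨?_, h3⟩
      intro h4
      simp only at h4 ⊢
      rcases Int.units_eq_one_or x.1 with hx | hx <;> rcases Int.units_eq_one_or y.1 with hy | hy
      · rw [hx, hy]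
      · exfalso
        have hne : ¬ ((-1 : ℤˣ) = 1) := by decide
        rw [hx, hy, if_pos rfl, if_neg hne, Units.val_one, zpow_one, QuotientGroup.eq] at h4
        have h5 : (q * τ)⁻¹ * (q * τ * f0 x.2) = f0 x.2 := by group
        rw [h5] at h4
        have h6 := hl.1 (by rw [hx]; exact h1 _ h4)
        rw [hx, hy] at h6
        exact hne h6.symm
      · exfalso
        have hne : ¬ ((-1 : ℤˣ) = 1) := by decide
        rw [hx, hy, if_neg hne, if_pos rfl, Units.val_neg, Units.val_one, zpow_neg_one,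
          QuotientGroup.eq] at h4
        have h5 : q⁻¹ * (q * τ⁻¹ * f0 x.2 * τ) = τ⁻¹ * f0 x.2 * τ := by group
        rw [h5] at h4
        have h6 := hl.1 (by rw [hx]; exact h2 _ h4)
        rw [hx, hy] at h6
        exact hne h6
      · rw [hx, hy]

end words

theorem hnn_mem (hC : Inherits C) (hE : Extension C) {B Q : Type} [Group B] [Group Q]
    (B1 B2 : Subgroup B) (φ : B1 ≃* B2) (f : HNNExtension B B1 B2 φ →* Q)
    (hf : Function.Injective (f.comp (HNNExtension.of (A := B1) (B := B2) (φ := φ))))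
    (hQ : C Q) : C (HNNExtension B B1 B2 φ) := by
  classical
  set f0 : B →* Q := f.comp (HNNExtension.of (A := B1) (B := B2) (φ := φ)) with hf0
  set C1 : Subgroup Q := B1.map f0 with hC1
  set τ : Q := f HNNExtension.t with hτ
  have hrel : ∀ a : B1, τ * f0 a = f0 (φ a) * τ := by
    intro a
    rw [hτ, hf0, MonoidHom.comp_apply, MonoidHom.comp_apply, ← map_mul, ← map_mul,
      HNNExtension.t_mul_of]
  have hcomm : ∀ c ∈ C1, (SemidirectProduct.inr c : HS Q C1) * hl C1 1 =
      hl C1 1 * SemidirectProduct.inr c := by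
    intro c hc
    rw [inr_hl, mul_one]
    have h1 : hl C1 c = hl C1 1 := by
      unfold hl
      have h2 : ((c : Q) : Q ⧸ C1) = ((1 : Q) : Q ⧸ C1) := by
        rw [QuotientGroup.eq, mul_one]
        exact C1.inv_mem hc
      rw [h2]
    rw [h1]
  have hrel2 : ∀ a : B1, (SemidirectProduct.inr τ * hl C1 1) *
      ((SemidirectProduct.inr : Q →* HS Q C1).comp f0) a =
      ((SemidirectProduct.inr : Q →* HS Q C1).comp f0) (φ a) *
        (SemidirectProduct.inr τ * hl C1 1) := by
    intro a
    change (SemidirectProduct.inr τ * hl C1 1) * SemidirectProduct.inr (f0 a) =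
      SemidirectProduct.inr (f0 (φ a)) * (SemidirectProduct.inr τ * hl C1 1)
    rw [mul_assoc, ← hcomm (f0 a) ⟨a, a.2, rfl⟩, ← mul_assoc, ← map_mul, hrel, map_mul, mul_assoc]
  let α : HNNExtension B B1 B2 φ →* HS Q C1 :=
    HNNExtension.lift ((SemidirectProduct.inr : Q →* HS Q C1).comp f0)
      (SemidirectProduct.inr τ * hl C1 1) hrel2
  refine hC.of_injective α ?_ (semidirect_mem hC hE _ hQ)
  rw [injective_iff_map_eq_one]
  intro x hx
  obtain ⟨d⟩ := HNNExtension.NormalWord.TransversalPair.nonempty B B1 B2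
  set w := HNNExtension.NormalWord.equiv φ d x with hw
  have hwx : w.prod φ = x := (HNNExtension.NormalWord.equiv φ d).symm_apply_apply x
  have hα : α x = SemidirectProduct.inr (f0 w.head) *
      (w.toList.map (fun x => (SemidirectProduct.inr τ * hl C1 1) ^ (x.1 : ℤ) *
        (SemidirectProduct.inr (f0 x.2) : HS Q C1))).prod := by
    rw [← hwx, HNNExtension.NormalWord.ReducedWord.prod, map_mul, map_list_prod, List.map_map]
    refine congrArg₂ (· * ·) (HNNExtension.lift_of _ _ _ _) ?_
    · congr 1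
      apply List.map_congr_left
      intro y _
      rw [Function.comp_apply, map_mul, map_zpow]
      have ht : α HNNExtension.t = SemidirectProduct.inr τ * hl C1 1 :=
        HNNExtension.lift_t _ _ _
      have ho : α (HNNExtension.of y.2) = SemidirectProduct.inr (f0 y.2) :=
        HNNExtension.lift_of _ _ _ _
      rw [ht, ho]
  obtain ⟨r, hr⟩ := hnn_word C1 τ f0 w.toList (f0 w.head)
  have h0 : (SemidirectProduct.inl (FreeGroup.mk (hnnLab C1 τ f0 (f0 w.head) w.toList)) : HS Q C1) *
      SemidirectProduct.inr r = 1 := by rw [← hr, ← hα, hx]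
  have h1 : FreeGroup.mk (hnnLab C1 τ f0 (f0 w.head) w.toList) = 1 := by
    have h2 := congrArg SemidirectProduct.left h0
    simpa using h2
  have hred := hnnLab_reduced B1 B2 C1 τ f0 (fun g hg => by
      obtain ⟨a, ha, hag⟩ := hg
      rw [← hf hag]
      exact ha) (fun g hg => by
      obtain ⟨a, ha, hag⟩ := hg
      have h3 : f0 g = f0 (φ ⟨a, ha⟩) := by
        have h4 := hrel ⟨a, ha⟩
        change τ * f0 a = _ at h4
        rw [hag] at h4
        have h5 : τ * (τ⁻¹ * f0 g * τ) = f0 g * τ := by group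
        rw [h5] at h4
        exact mul_right_cancel h4
      rw [hf h3]
      exact (φ ⟨a, ha⟩).2) w.toList w.chain (f0 w.head)
  have h2 : hnnLab C1 τ f0 (f0 w.head) w.toList = [] := by
    rw [← hred.reduce_eq, ← FreeGroup.toWord_mk, h1, FreeGroup.toWord_one]
  have h3 : w.toList = [] := by
    cases hl : w.toList with
    | nil => rfl
    | cons y l =>
      rw [hl, hnnLab] at h2
      exact absurd h2 (List.cons_ne_nil _ _)
  rw [h3, List.map_nil, List.prod_nil, mul_one] at hα
  have h4 : (SemidirectProduct.inr (f0 w.head) : HS Q C1) = 1 := by rw [← hα, hx]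
  have h5 : f0 w.head = 1 := by
    have h6 := congrArg SemidirectProduct.right h4
    simpa using h6
  have h6 : w.head = 1 := hf (by rw [h5, map_one])
  rw [← hwx, HNNExtension.NormalWord.ReducedWord.prod, h3, List.map_nil, List.prod_nil, mul_one, h6,
    map_one]

end Pool.Agent.H93.TR
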