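import Pool.Agent.H93.TR.GNDefs
import Pool.Agent.H93.TR.HNN

/-!
# The approximating HNN extensions are in the class

Module H93 TR GNMEM (MP_2a547c_gt). Complete proof.

`fs_mem`: `FS A` is the directed union over the finite sets `J : Finset ℤ` of the subgroups `T_J` of the functions with
support in `J` (`hC.union`), and `T_J` embeds in `J → A` by restriction (`hC.of_injective`, `hC.pi`).

`rot_mem`: let `R` be the subgroup of the permutations `σ` of `ℤ` with `σ k = k` for `k < -n` and for `k > n`; it is finite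
(it embeds in the maps from the finite set `Finset.Icc (-n) n` to itself). `Q = FS A ⋊[(perm A).comp R.subtype] R` is in
the class: the kernel of `rightHom` has finite index and is isomorphic to `FS A` (`hC.index`, `hC.of_injective`).
`r : R` is the cycle `k ↦ k + 1` for `-n ≤ k < n`, `n ↦ -n`, `k ↦ k` otherwise. Let `f = HNNExtension.lift inl (inr r) _`;
relation: `inr r * inl a = inl (shift A a) * inr r` for `a ∈ lo A n`, i.e. `perm A r a = shift A a`, pointwise
`a (r⁻¹ k) = a (k - 1)`: for `-n < k ≤ n` `r⁻¹ k = k - 1`; for `k = -n` `r⁻¹ k = n` and `a n = 1 = a (-n - 1)`;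
otherwise `r⁻¹ k = k` and `a k = 1 = a (k - 1)` (for `k > n` or `k < -n`; `a` has support in `[-n, n - 1]`).
`f.comp of = inl` is injective. Use `hnn_mem`.
-/

set_option autoImplicit false

namespace Pool.Agent.H93.TR

open Pool.Agent.H98.FJ

variable {C : (G : Type) → [Group G] → Prop}

/-- the functions with support in a finite set -/
def tJ (A : Type) [Group A] (J : Finset ℤ) : Subgroup (FS A) where
  carrier := {b | ∀ k : ℤ, k ∉ J → b.1 k = 1}
  one_mem' := fun k _ => rfl
  mul_mem' := by
    intro a b ha hb k hk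
    change a.1 k * b.1 k = 1
    rw [ha k hk, hb k hk, mul_one]
  inv_mem' := by
    intro a ha k hk
    change (a.1 k)⁻¹ = 1
    rw [ha k hk, inv_one]

theorem fs_mem (hC : Inherits C) (A : Type) [Group A] (hA : C A) : C (FS A) := by
  classical
  refine hC.union (tJ A) ?_ ?_ ?_
  · intro J J' hJ b hb k hk
    exact hb k (fun h => hk (hJ h))
  · intro b
    refine ⟨(mem_FS.1 b.2).toFinset, ?_⟩
    intro k hk
    by_contra h
    exact hk (by simpa using h)
  · intro J
    let f : tJ A J →* (J → A) :=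
      { toFun := fun b k => b.1.1 k
        map_one' := rfl
        map_mul' := fun a b => rfl }
    refine hC.of_injective f ?_ (hC.pi J inferInstance (fun _ => A) fun _ => hA)
    intro a b hab
    apply Subtype.ext
    apply Subtype.ext
    funext k
    by_cases hk : k ∈ J
    · exact congrFun hab ⟨k, hk⟩
    · rw [a.2 k hk, b.2 k hk]

/-- the set `[-n, n]` -/
abbrev IC (n : ℕ) : Type := {k : ℤ // -(n : ℤ) ≤ k ∧ k ≤ n}

/-- the cyclic rotation of `[-n, n]` -/
def rot (n : ℕ) : Equiv.Perm (IC n) where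
  toFun k := ⟨if k.1 = n then -(n : ℤ) else k.1 + 1, by
    have := k.2
    split_ifs <;> constructor <;> omega⟩
  invFun k := ⟨if k.1 = -(n : ℤ) then (n : ℤ) else k.1 - 1, by
    have := k.2
    split_ifs <;> constructor <;> omega⟩
  left_inv := by
    intro k
    apply Subtype.ext
    have := k.2
    change (if (if k.1 = n then -(n : ℤ) else k.1 + 1) = -(n : ℤ) then (n : ℤ)
      else (if k.1 = n then -(n : ℤ) else k.1 + 1) - 1) = k.1
    split_ifs <;> omega
  right_inv := by
    intro k
    apply Subtype.ext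
    have := k.2
    change (if (if k.1 = -(n : ℤ) then (n : ℤ) else k.1 - 1) = (n : ℤ) then -(n : ℤ)
      else (if k.1 = -(n : ℤ) then (n : ℤ) else k.1 - 1) + 1) = k.1
    split_ifs <;> omega

theorem rot_inv_apply (n : ℕ) (k : IC n) :
    (((rot n)⁻¹ k : IC n) : ℤ) = if k.1 = -(n : ℤ) then (n : ℤ) else k.1 - 1 := rfl

theorem rot_perm (A : Type) [Group A] (n : ℕ) (b : FS A) (hb : b ∈ lo A n) :
    perm A (Equiv.Perm.ofSubtype (rot n)) b = shift A b := by
  apply Subtype.ext
  funext k
  rw [perm_apply, shift_apply, ← map_inv]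
  rw [mem_lo] at hb
  have h1 : ∀ k : ℤ, ¬ (-(n : ℤ) ≤ k ∧ k < n) → b.1 k = 1 := by
    intro k hk
    by_contra h
    exact hk (hb k h)
  by_cases hk : -(n : ℤ) ≤ k ∧ k ≤ n
  · have h3 := Equiv.Perm.ofSubtype_apply_of_mem (p := fun k : ℤ => -(n : ℤ) ≤ k ∧ k ≤ n)
      ((rot n)⁻¹) (a := k) hk
    rw [h3, rot_inv_apply]
    by_cases h2 : k = -(n : ℤ)
    · rw [if_pos h2, h1 (n : ℤ) (by omega), h1 (k - 1) (by omega)]
    · rw [if_neg h2]
  · have h3 := Equiv.Perm.ofSubtype_apply_of_not_mem (p := fun k : ℤ => -(n : ℤ) ≤ k ∧ k ≤ n)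
      ((rot n)⁻¹) (a := k) hk
    rw [h3, h1 k (by omega), h1 (k - 1) (by omega)]

theorem gn_mem (hC : Inherits C) (hE : Extension C) (A : Type) [Group A] (hA : C A) (n : ℕ) :
    C (GN A n) := by
  classical
  have hfin : Finite (IC n) := by
    have h1 : (Set.Icc (-(n : ℤ)) n).Finite := Set.finite_Icc _ _
    exact h1.to_subtype
  let ψ : Equiv.Perm (IC n) →* MulAut (FS A) := (perm A).comp Equiv.Perm.ofSubtype
  have hQ : C (FS A ⋊[ψ] Equiv.Perm (IC n)) := by
    have h1 : (SemidirectProduct.inl : FS A →* FS A ⋊[ψ] Equiv.Perm (IC n)).range.FiniteIndex := by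
      rw [SemidirectProduct.range_inl_eq_ker_rightHom]
      infer_instance
    refine hC.index _ _ h1 ?_
    exact hC.iso _ _ (MonoidHom.ofInjective SemidirectProduct.inl_injective) (fs_mem hC A hA)
  have hrel : ∀ a : lo A n, (SemidirectProduct.inr (rot n) : FS A ⋊[ψ] Equiv.Perm (IC n)) *
      (SemidirectProduct.inl : FS A →* FS A ⋊[ψ] Equiv.Perm (IC n)) a =
      (SemidirectProduct.inl : FS A →* FS A ⋊[ψ] Equiv.Perm (IC n)) ((sh A n a : up A n) : FS A) *
        SemidirectProduct.inr (rot n) := by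
    intro a
    have h1 := SemidirectProduct.inl_aut (φ := ψ) (rot n) (a : FS A)
    have h2 : ψ (rot n) (a : FS A) = ((sh A n a : up A n) : FS A) := by
      rw [sh_apply]
      exact rot_perm A n a.1 a.2
    rw [h2] at h1
    rw [h1, map_inv, inv_mul_cancel_right]
  refine hnn_mem hC hE (lo A n) (up A n) (sh A n)
    (HNNExtension.lift (SemidirectProduct.inl : FS A →* FS A ⋊[ψ] Equiv.Perm (IC n))
      (SemidirectProduct.inr (rot n)) hrel) ?_ hQ
  intro a b hab
  rw [MonoidHom.comp_apply, MonoidHom.comp_apply, HNNExtension.lift_of, HNNExtension.lift_of] at hab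
  exact SemidirectProduct.inl_injective hab

end Pool.Agent.H93.TR
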