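import Pool.Agent.H93.TR.KerBasic

/-!
# Kernels and the extension property

Module H93 TR KEREXT (MP_2a547c_gt). Complete proof: `N`, `L` are normal (`hn`, `IsKer.normal`). Apply `hE` to the map
`p : G ⧸ N → G ⧸ L` (`QuotientGroup.map N L (MonoidHom.id G) hNL`, surjective); `C (G ⧸ L)` is `IsKer.quot`; the result
`C (G ⧸ N)` gives the claim by `IsKer.of_quot`. Let `V` be a virtually cyclic subgroup of `G ⧸ L`, `v` in `V` with
`Subgroup.zpowers v` of finite index in `V`. Case 1: `v` has finite order: then `V` is finite, and the subgroup of `V.comap p`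
of the elements which `p` maps to `1` (kernel of `V.comap p → V`) has finite index; put `s = 1`. Case 2: `v` has
infinite order: let `s ∈ G` be a representative of `v`; then `s ^ n ∈ L` only for `n = 0`. In both cases
`hs : ∀ n : ℤ, s ^ n ∈ L → s ^ n = 1`, and the preimage `P` in `V.comap p` of the subgroup generated by (the class of) `s`
in `V` has finite index in `V.comap p` (preimage of a subgroup of finite index under the surjective homomorphism
`V.comap p → V`; see the proof of `semidirect_mem` in `Pool/Agent/H98/FJ/P/Ext.lean`, which does the same). By `hC.index` it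
suffices that `P` is in the class. `P` is isomorphic to the image of `L ⊔ Subgroup.zpowers s` in `G ⧸ N`: the elements of
`G ⧸ N` which `p` maps to a power of the class of `s` are the classes of the elements `l * s ^ n`. By
`IsKer.quot` for `h s hs` the group `(L ⊔ zpowers s) ⧸ N.subgroupOf _` is in the class, hence also the range of its injective
map to `G ⧸ N`, and `P` embeds in that range (`hC.of_injective`).
-/

set_option autoImplicit false

namespace Pool.Agent.H93.TR

open Pool.Agent.H98.FJ

variable {C : (G : Type) → [Group G] → Prop} {G : Type} [Group G]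

theorem kerext_key (hC : Inherits C) {N L : Subgroup G} [hN : N.Normal] [hL : L.Normal]
    (p : G ⧸ N →* G ⧸ L) (hp : ∀ g : G, p (QuotientGroup.mk' N g) = QuotientGroup.mk' L g) (s : G)
    (h : IsKer C (N.subgroupOf (L ⊔ Subgroup.zpowers s))) {K : Type} [Group K] (j : K →* G ⧸ N)
    (hj : Function.Injective j)
    (hv : ∀ k, p (j k) ∈ Subgroup.zpowers (QuotientGroup.mk' L s)) : C K := by
  obtain ⟨S, hS⟩ : ∃ S : Subgroup G, S = L ⊔ Subgroup.zpowers s := ⟨_, rfl⟩
  rw [← hS] at h
  have hLS : L ≤ S := by rw [hS]; exact le_sup_left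
  have hsS : s ∈ S := by
    rw [hS]
    exact (le_sup_right : Subgroup.zpowers s ≤ L ⊔ Subgroup.zpowers s) (Subgroup.mem_zpowers s)
  have hq := h.quot hC
  have hmem : ∀ k, j k ∈ ((QuotientGroup.mk' N).comp S.subtype).range := by
    intro k
    obtain ⟨g, hg⟩ := QuotientGroup.mk'_surjective N (j k)
    obtain ⟨n, hn⟩ := Subgroup.mem_zpowers_iff.mp (hv k)
    rw [← hg, hp, ← map_zpow] at hn
    have h1 : (s ^ n)⁻¹ * g ∈ L := by
      rw [← QuotientGroup.eq]
      exact hn
    have h2 : g ∈ S := by
      have h3 := S.mul_mem (S.zpow_mem hsS n) (hLS h1)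
      rwa [mul_inv_cancel_left] at h3
    exact ⟨⟨g, h2⟩, hg⟩
  have hker : ((QuotientGroup.mk' N).comp S.subtype).ker = N.subgroupOf S := by
    ext x
    rw [MonoidHom.mem_ker, Subgroup.mem_subgroupOf]
    exact QuotientGroup.eq_one_iff (x : G)
  have hCr : C ((QuotientGroup.mk' N).comp S.subtype).range := by
    have e := (QuotientGroup.quotientKerEquivRange ((QuotientGroup.mk' N).comp S.subtype))
    have e' := (QuotientGroup.quotientMulEquivOfEq hker).symm
    exact hC.iso _ _ (e'.trans e) hq
  refine hC.of_injective (H := ((QuotientGroup.mk' N).comp S.subtype).range)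
    (j.codRestrict _ hmem) ?_ hCr
  intro x y hxy
  exact hj (congrArg Subtype.val hxy)

theorem IsKer.ext (hC : Inherits C) (hE : Extension C) {N L : Subgroup G} (hn : N.Normal)
    (hL : IsKer C L) (hNL : N ≤ L)
    (h : ∀ s : G, (∀ n : ℤ, s ^ n ∈ L → s ^ n = 1) →
      IsKer C (N.subgroupOf (L ⊔ Subgroup.zpowers s))) :
    IsKer C N := by
  have := hn
  have := hL.normal
  obtain ⟨p, hp⟩ : ∃ p : G ⧸ N →* G ⧸ L,
      ∀ g : G, p (QuotientGroup.mk' N g) = QuotientGroup.mk' L g :=
    ⟨QuotientGroup.map N L (MonoidHom.id G) (fun x hx => hNL hx), fun g => rfl⟩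
  have hps : Function.Surjective p := by
    intro y
    obtain ⟨g, rfl⟩ := QuotientGroup.mk'_surjective L y
    exact ⟨QuotientGroup.mk' N g, hp g⟩
  refine IsKer.of_quot ?_
  refine hE (G ⧸ N) (G ⧸ L) p hps (hL.quot hC) ?_
  rintro V ⟨v, hv⟩
  have hr := MonoidHom.subgroupComap_surjective_of_surjective p V hps
  by_cases hfin : IsOfFinOrder v
  · have hz : Finite (Subgroup.zpowers v) := Set.Finite.to_subtype (finite_zpowers.mpr hfin)
    have hVf : Finite V := by
      have hq' : Finite (V ⧸ Subgroup.zpowers v) := Subgroup.finite_quotient_of_finiteIndex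
      exact Finite.of_subgroup_quotient (Subgroup.zpowers v)
    have hrf : Finite (p.subgroupComap V).range := Subtype.finite
    refine hC.index _ (p.subgroupComap V).ker (Subgroup.finiteIndex_ker _) ?_
    refine kerext_key hC p hp (1 : G) (h 1 (fun n _ => one_zpow n))
      ((V.comap p).subtype.comp (Subgroup.subtype _)) ?_ ?_
    · intro x y hxy
      exact Subtype.ext (Subtype.ext hxy)
    · rintro ⟨x, hx⟩
      have h1 : p x.1 = 1 := congrArg (Subtype.val : V → G ⧸ L) hx
      change p x.1 ∈ _
      rw [h1]
      exact Subgroup.one_mem _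
  · obtain ⟨s, hs⟩ := QuotientGroup.mk'_surjective L (v : G ⧸ L)
    have hs0 : ∀ n : ℤ, s ^ n ∈ L → s ^ n = 1 := by
      intro n hn'
      have h1 : (QuotientGroup.mk' L s) ^ n = 1 := by
        rw [← map_zpow]
        exact (QuotientGroup.eq_one_iff _).2 hn'
      rw [hs] at h1
      have h2 : v ^ n = 1 := Subtype.ext (by push_cast; exact h1)
      have h3 := injective_zpow_iff_not_isOfFinOrder.mpr hfin
      have h4 : n = 0 := h3 (by simpa using h2)
      rw [h4, zpow_zero]
    have hK : ((Subgroup.zpowers v).comap (p.subgroupComap V)).FiniteIndex := by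
      refine ⟨?_⟩
      rw [Subgroup.index_comap_of_surjective _ hr]
      exact hv.index_ne_zero
    refine hC.index _ _ hK ?_
    refine kerext_key hC p hp s (h s hs0)
      ((V.comap p).subtype.comp (Subgroup.subtype _)) ?_ ?_
    · intro x y hxy
      exact Subtype.ext (Subtype.ext hxy)
    · rintro ⟨x, hx⟩
      obtain ⟨n, hn'⟩ := Subgroup.mem_zpowers_iff.mp (Subgroup.mem_comap.mp hx)
      refine Subgroup.mem_zpowers_iff.mpr ⟨n, ?_⟩
      rw [hs]
      have h1 := congrArg (Subtype.val : V → G ⧸ L) hn'
      exact h1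

end Pool.Agent.H93.TR
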