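import Pool.Agent.H93.TR.KerBasic
import Pool.Agent.H93.TR.Pot
import Pool.Agent.H93.TR.Fold

/-!
# The label homomorphism

Module H93 TR LABEL (MP_2a547c_gt). Complete proof. `N` is normal (`IsKer.normal`). Let `Ω = Orb N (V × V)` (orbits of
pairs; `G` acts on `V × V` by the product action `Prod.mulAction`) with the action of `G` of `instOrb`;
`q v w = orb N (v, w)`. `N` acts trivially on `Ω`, so `MulAction.toPermHom G Ω` factors through
`σ : G ⧸ N →* Equiv.Perm Ω` (`QuotientGroup.lift`). `C (G ⧸ N)` by `IsKer.quot`; so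
`C (FreeGroup Ω ⋊[permAct σ] (G ⧸ N))` by `semidirect_mem hC hE σ`.
For adjacent `v, w`: `q v w ≠ q w v`, otherwise an element of `N` exchanges `v` and `w` (`orb_eq_iff`, `Prod.ext_iff`),
against `hinv`. Let `l v w = of (q v w) * (of (q w v))⁻¹`, `l v w * l w v = 1`. Take `h` from `exists_potential` and a vertex
`v0` (connected, hence nonempty). For `g : G` write `a g = permAct σ (g : G ⧸ N)`, an automorphism of `FreeGroup Ω` with
`a g (of (q v w)) = of (q (g • v) (g • w))`. The functions `v ↦ a g (h v)` and `v ↦ h (g • v)` have the same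
increments along edges (`a g (l v w) = l (g • v) (g • w)`, `hX.adj`), so by `potential_unique` there is `c g` with
`h (g • v) = c g * a g (h v)` for all `v` (choose it for each `g`; it is unique, `V` is nonempty). Then
`c (g * g') = c g * a g (c g')` and `c 1 = 1`, so `Λ g = (c g, g)` (`⟨c g, (g : G ⧸ N)⟩`) is a homomorphism from `G` to
the semidirect product. Let `L = Λ.ker`; `IsKer C L`. If `Λ g = 1` then `g ∈ N` (`QuotientGroup.eq_one_iff`) and
`c g = 1`; for `n ∈ N` `a n = 1`, so `h (n • v) = c n * h v` for all `v`. Hence `n ∈ N` with `n • x = x` has `c n = 1` and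
lies in `L`; and for `l ∈ L` we have `h (l • v) = h v` for all `v`. `Folds`: if `l • v ≠ v` apply `fold` to `v` and
`w = l • v`: `q x u = q x u'` gives `n ∈ N` with `n • (x, u') = (x, u)` or the other way round
(`orb_eq_iff`); take `n` or `n⁻¹`.
-/

set_option autoImplicit false

namespace Pool.Agent.H93.TR

open Pool.Agent.H98.FJ

variable {C : (G : Type) → [Group G] → Prop}


theorem label_perm {G V : Type} [Group G] [MulAction G V] (N : Subgroup G) [N.Normal]
    (n : G) (hn : n ∈ N) : MulAction.toPermHom G (Orb N (V × V)) n = 1 := by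
  ext ω
  obtain ⟨x, rfl⟩ := orb_surj N ω
  change n • orb N x = orb N x
  rw [smul_orb, orb_eq_iff]
  exact ⟨n, hn, rfl⟩

theorem label (hC : Inherits C) (hE : Extension C) {G V : Type} [Group G] [MulAction G V]
    {X : SimpleGraph V} (hX : OnTree G X) (N : Subgroup G) (hN : IsKer C N) (hinv : NoInv X N) :
    ∃ L : Subgroup G, IsKer C L ∧ L ≤ N ∧ (∀ n ∈ N, ∀ x : V, n • x = x → n ∈ L) ∧
      Folds X N L := by
  have hNn : N.Normal := hN.normal
  obtain ⟨σ, hσ⟩ : ∃ σ : G ⧸ N →* Equiv.Perm (Orb N (V × V)), ∀ (g : G) (ω : Orb N (V × V)),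
      σ (g : G ⧸ N) ω = g • ω :=
    ⟨QuotientGroup.lift N (MulAction.toPermHom G (Orb N (V × V)))
      (fun n hn => label_perm N n hn), fun g ω => rfl⟩
  have hQ : C (G ⧸ N) := hN.quot hC
  have hS := semidirect_mem hC hE σ hQ
  -- the labels
  set q : V → V → Orb N (V × V) := fun v w => orb N (v, w) with hqdef
  have hq : ∀ v w, X.Adj v w → q v w ≠ q w v := by
    intro v w hvw h
    obtain ⟨n, hn, h2⟩ := (orb_eq_iff N _ _).1 h
    have h3 : n • w = v := congrArg Prod.fst h2
    have h4 : n • v = w := congrArg Prod.snd h2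
    exact hinv n hn v w hvw h4 h3
  set l : V → V → FreeGroup (Orb N (V × V)) :=
    fun v w => FreeGroup.of (q v w) * (FreeGroup.of (q w v))⁻¹ with hldef
  have hl : ∀ v w, X.Adj v w → l v w * l w v = 1 := by
    intro v w _
    simp only [hldef]
    group
  obtain ⟨h, hh⟩ := exists_potential hX.tree l hl
  -- the action on the free group
  obtain ⟨a, ha⟩ : ∃ a : G →* MulAut (FreeGroup (Orb N (V × V))),
      ∀ g, a g = permAct σ (g : G ⧸ N) :=
    ⟨(permAct σ).comp (QuotientGroup.mk' N), fun g => rfl⟩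
  have haof : ∀ (g : G) (ω : Orb N (V × V)), a g (FreeGroup.of ω) = FreeGroup.of (g • ω) := by
    intro g ω
    rw [ha]
    change FreeGroup.freeGroupCongr (σ (g : G ⧸ N)) (FreeGroup.of ω) = _
    rw [FreeGroup.freeGroupCongr_apply, FreeGroup.map.of, hσ]
  have hal : ∀ (g : G) (v w : V), a g (l v w) = l (g • v) (g • w) := by
    intro g v w
    simp only [hldef]
    rw [map_mul, map_inv, haof, haof]
    rfl
  have hex : ∀ g : G, ∃ c : FreeGroup (Orb N (V × V)), ∀ v, h (g • v) = c * a g (h v) := by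
    intro g
    refine potential_unique hX.tree.1 (fun v => a g (h v)) (fun v => h (g • v)) ?_
    intro v w hvw
    rw [hh _ _ (hX.adj g v w hvw), inv_mul_cancel_left, ← hal, hh v w hvw, map_mul,
      inv_mul_cancel_left]
  choose c hc using hex
  obtain ⟨v0⟩ : Nonempty V := hX.tree.1.nonempty
  have hcmul : ∀ g g' : G, c (g * g') = c g * a g (c g') := by
    intro g g'
    have h1 := hc (g * g') v0
    rw [mul_smul, hc g (g' • v0), hc g' v0, map_mul (a g), map_mul a, MulAut.mul_apply,
      ← mul_assoc] at h1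
    exact (mul_right_cancel h1).symm
  obtain ⟨Λ, hΛ⟩ : ∃ Λ : G →* FreeGroup (Orb N (V × V)) ⋊[permAct σ] (G ⧸ N),
      ∀ g, Λ g = ⟨c g, (g : G ⧸ N)⟩ := by
    refine ⟨MonoidHom.mk' (fun g => ⟨c g, (g : G ⧸ N)⟩) ?_, fun g => rfl⟩
    intro g g'
    refine SemidirectProduct.ext ?_ ?_
    · rw [SemidirectProduct.mul_left]
      change c (g * g') = c g * (permAct σ (g : G ⧸ N)) (c g')
      rw [hcmul, ha]
    · rfl
  have hker : ∀ g, g ∈ Λ.ker ↔ c g = 1 ∧ g ∈ N := by
    intro g
    rw [MonoidHom.mem_ker, hΛ]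
    constructor
    · intro h1
      have h2 := congrArg SemidirectProduct.left h1
      have h3 := congrArg SemidirectProduct.right h1
      exact ⟨h2, (QuotientGroup.eq_one_iff g).1 h3⟩
    · rintro ⟨h1, h2⟩
      refine SemidirectProduct.ext h1 ?_
      exact (QuotientGroup.eq_one_iff g).2 h2
  have han : ∀ n ∈ N, a n = 1 := by
    intro n hn
    rw [ha, (QuotientGroup.eq_one_iff n).2 hn, map_one]
  refine ⟨Λ.ker, ⟨_, _, Λ, hS, rfl⟩, fun g hg => ((hker g).1 hg).2, ?_, ?_⟩
  · intro n hn x hx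
    refine (hker n).2 ⟨?_, hn⟩
    have h1 := hc n x
    rw [hx, han n hn, MulAut.one_apply] at h1
    exact mul_eq_right.1 h1.symm
  · intro k hk v hkv
    obtain ⟨hk1, hk2⟩ := (hker k).1 hk
    have h1 := hc k v
    rw [hk1, han k hk2, MulAut.one_apply, one_mul] at h1
    obtain ⟨u, x, u', h2, h3, h4, h5⟩ := fold hX.tree.1 q hq h hh (v := v) (w := k • v)
      (fun h => hkv h.symm) h1.symm
    obtain ⟨n, hn, h6⟩ := (orb_eq_iff N _ _).1 h4
    have h7 : n • x = x := congrArg Prod.fst h6
    have h8 : n • u' = u := congrArg Prod.snd h6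
    refine ⟨u, x, u', n⁻¹, N.inv_mem hn, ?_, ?_, h2, h3, h5⟩
    · rw [inv_smul_eq_iff, h7]
    · rw [inv_smul_eq_iff, h8]

end Pool.Agent.H93.TR
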