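import Pool.Agent.H93.TR.Pot

/-!
# The turn homomorphisms

Module H93 TR TURN (MP_2a547c_gt). Complete proof. `L` acts freely on the ordered pairs of adjacent vertices (`hL`), so
there is a function `s : V → V → G` with `s x y ∈ L` and `s (l • x) (l • y) = l * s x y` for all `l ∈ L` and adjacent
`x, y`: choose a representative of the `L`-orbit of `(x, y)` in `V × V` (for instance `Quotient.out` of `orb L (x, y)`) and
let `s x y` be an element of `L` which maps the representative to `(x, y)` (it is unique for adjacent pairs).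
Let `t x y = s x y` if `x ∈ O` and `t x y = 1` if `x ∉ O`, and let `H : V → G` be a potential
(`exists_potential`) of `m x y = t x y * (t y x)⁻¹`. For `l ∈ L` let `H_l x = H (l • x) * l` if `x ∈ O` and
`H_l x = H (l • x)` if `x ∉ O`. Then `(H_l x)⁻¹ * H_l y = (H x)⁻¹ * H y` for adjacent `x, y` (four cases, e.g. `x, y ∈ O`:
`l⁻¹ * m (l • x) (l • y) * l = l⁻¹ * (l * s x y) * (l * s y x)⁻¹ * l = m x y`; `O` is invariant under `L` by `hO`), so by
`potential_unique` there is `ρ l` with `H_l x = ρ l * H x` for all `x`. `ρ` is a homomorphism: `ρ (l * l')` and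
`ρ l * ρ l'` satisfy `H_{l l'} x = ρ l * ρ l' * H x` (in both cases, `x ∈ O` or not), `V` is nonempty. For `l • x = x`,
`x ∉ O`: `H x = ρ l * H x`, so `ρ l = 1`. For `x ∈ O`: `H x * l = ρ l * H x`, so `ρ l = 1` implies `l = 1`.
-/

set_option autoImplicit false

namespace Pool.Agent.H93.TR

/-- a section of the free action of `L` on the ordered pairs of adjacent vertices -/
theorem turn_section {G V : Type} [Group G] [MulAction G V] {X : SimpleGraph V}
    (hX : OnTree G X) (L : Subgroup G) (hL : EdgeFree X L) :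
    ∃ s : V → V → G, (∀ x y, s x y ∈ L) ∧
      ∀ l ∈ L, ∀ x y, X.Adj x y → s (l • x) (l • y) = l * s x y := by
  classical
  have hex : ∀ x y : V, ∃ l ∈ L, l • (Quotient.out (orb L (x, y)) : V × V) = (x, y) := by
    intro x y
    have h1 : orb L (x, y) = orb L (Quotient.out (orb L (x, y)) : V × V) :=
      (Quotient.out_eq (orb L (x, y))).symm
    exact (orb_eq_iff L _ _).1 h1
  choose s hsL hs using hex
  refine ⟨s, hsL, fun l hl x y hxy => ?_⟩
  have h1 : orb L (l • x, l • y) = orb L (x, y) := (orb_eq_iff L _ _).2 ⟨l, hl, rfl⟩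
  have h2 := hs (l • x) (l • y)
  rw [h1] at h2
  have h3 := hs x y
  obtain ⟨a, ha⟩ : ∃ a : V × V, a = Quotient.out (orb L (x, y)) := ⟨_, rfl⟩
  rw [← ha] at h2 h3
  have h4 : s x y • a.1 = x := congrArg Prod.fst h3
  have h5 : s x y • a.2 = y := congrArg Prod.snd h3
  have h6 : s (l • x) (l • y) • a.1 = l • x := congrArg Prod.fst h2
  have h7 : s (l • x) (l • y) • a.2 = l • y := congrArg Prod.snd h2
  have hadj : X.Adj a.1 a.2 := by
    have h8 := hX.adj (s x y)⁻¹ x y hxy
    rwa [show (s x y)⁻¹ • x = a.1 from inv_smul_eq_iff.2 h4.symm,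
      show (s x y)⁻¹ • y = a.2 from inv_smul_eq_iff.2 h5.symm] at h8
  have h9 := hL ((l * s x y)⁻¹ * s (l • x) (l • y))
    (L.mul_mem (L.inv_mem (L.mul_mem hl (hsL _ _))) (hsL _ _)) a.1 a.2 hadj
    (by rw [mul_smul, h6, inv_smul_eq_iff, mul_smul, h4])
    (by rw [mul_smul, h7, inv_smul_eq_iff, mul_smul, h5])
  exact (inv_mul_eq_one.1 h9).symm

theorem turn {G V : Type} [Group G] [MulAction G V] {X : SimpleGraph V} (hX : OnTree G X)
    (L : Subgroup G) (hL : EdgeFree X L) (O : Set V) (hO : ∀ l ∈ L, ∀ x : V, x ∈ O → l • x ∈ O) :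
    ∃ ρ : L →* G, (∀ (l : L) (x : V), (l : G) • x = x → x ∉ O → ρ l = 1) ∧
      ∀ (l : L) (x : V), (l : G) • x = x → x ∈ O → ρ l = 1 → l = 1 := by
  classical
  obtain ⟨s, -, hs⟩ := turn_section hX L hL
  have hO' : ∀ l ∈ L, ∀ x : V, l • x ∈ O ↔ x ∈ O := by
    intro l hl x
    refine ⟨fun h => ?_, hO l hl x⟩
    have h1 := hO l⁻¹ (L.inv_mem hl) _ h
    rwa [inv_smul_smul] at h1
  obtain ⟨t, ht⟩ : ∃ t : V → V → G, ∀ x y, t x y = if x ∈ O then s x y else 1 :=
    ⟨fun x y => if x ∈ O then s x y else 1, fun _ _ => rfl⟩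
  obtain ⟨c, hc⟩ : ∃ c : G → V → G, ∀ l x, c l x = if x ∈ O then l else 1 :=
    ⟨fun l x => if x ∈ O then l else 1, fun _ _ => rfl⟩
  have htl : ∀ l ∈ L, ∀ x y, X.Adj x y → t (l • x) (l • y) = c l x * t x y := by
    intro l hl x y hxy
    rw [ht, ht, hc]
    by_cases hx : x ∈ O
    · rw [if_pos ((hO' l hl x).2 hx), if_pos hx, if_pos hx, hs l hl x y hxy]
    · rw [if_neg (fun h => hx ((hO' l hl x).1 h)), if_neg hx, if_neg hx, one_mul]
  obtain ⟨H, hH⟩ := exists_potential hX.tree (fun x y => t x y * (t y x)⁻¹)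
    (fun v w _ => by group)
  have hpot : ∀ l : L, ∃ a : G, ∀ v, H ((l : G) • v) * c l v = a * H v := by
    intro l
    refine potential_unique hX.tree.1 H (fun v => H ((l : G) • v) * c l v) ?_
    intro v w hvw
    have h1 := hH v w hvw
    have h2 := hH _ _ (hX.adj (l : G) v w hvw)
    have h3 := htl l l.2 v w hvw
    have h4 := htl l l.2 w v hvw.symm
    simp only [h2, h1, h3, h4]
    group
  choose ρ hρ using hpot
  obtain ⟨v₀⟩ := hX.tree.1.nonempty
  have hcinv : ∀ l ∈ L, ∀ (k : G) (x : V), c k (l • x) = c k x := by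
    intro l hl k x
    rw [hc, hc]
    by_cases hx : x ∈ O
    · rw [if_pos ((hO' l hl x).2 hx), if_pos hx]
    · rw [if_neg (fun h => hx ((hO' l hl x).1 h)), if_neg hx]
  have hcmul : ∀ (k k' : G) (x : V), c (k * k') x = c k x * c k' x := by
    intro k k' x
    rw [hc, hc, hc]
    by_cases hx : x ∈ O
    · rw [if_pos hx, if_pos hx, if_pos hx]
    · rw [if_neg hx, if_neg hx, if_neg hx, one_mul]
  have hmul : ∀ l l' : L, ρ (l * l') = ρ l * ρ l' := by
    intro l l'
    have h1 := hρ (l * l') v₀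
    have h2 := hρ l ((l' : G) • v₀)
    have h3 := hρ l' v₀
    rw [hcinv _ l'.2] at h2
    rw [Subgroup.coe_mul, mul_smul, hcmul] at h1
    have h4 : ρ (l * l') * H v₀ = ρ l * ρ l' * H v₀ := by
      rw [← h1, mul_assoc (ρ l), ← h3, ← mul_assoc, h2, mul_assoc]
    exact mul_right_cancel h4
  refine ⟨MonoidHom.mk' ρ hmul, ?_, ?_⟩
  · intro l x hx hxO
    show ρ l = 1
    have h1 := hρ l x
    rw [hx, hc, if_neg hxO, mul_one] at h1
    exact (mul_eq_right.1 h1.symm)
  · intro l x hx hxO h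
    have h' : ρ l = 1 := h
    have h1 := hρ l x
    rw [hx, hc, if_pos hxO, h', one_mul] at h1
    exact Subtype.ext (mul_eq_left.1 h1)

end Pool.Agent.H93.TR
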