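import Pool.Agent.H93.TR.Label

/-!
# The vertex injective case

Module H93 TR VINJ (MP_2a547c_gt). Complete proof: take `L` from `label`. We show `L = ⊥` and use `IsKer.mem_of_bot`. Let
`l ∈ L` and let `v` be a vertex (the tree is nonempty). If `l • v = v` then `l = 1` by `hv` (`L ≤ N`). Otherwise the
folding property gives `u, x, u', n` with `n ∈ N`, `n • x = x`, so `n = 1` by `hv` and `u = u'`; then
`X.dist v (l • v) ≤ X.dist v u + X.dist u (l • v)` (triangle inequality, `SimpleGraph.Connected.dist_triangle`)
contradicts `X.dist v u + 2 + X.dist u (l • v) ≤ X.dist v (l • v)`.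
-/

set_option autoImplicit false

namespace Pool.Agent.H93.TR

open Pool.Agent.H98.FJ

variable {C : (G : Type) → [Group G] → Prop}

theorem vertex_injective (hC : Inherits C) (hE : Extension C) {G V : Type} [Group G]
    [MulAction G V] {X : SimpleGraph V} (hX : OnTree G X) (N : Subgroup G) (hN : IsKer C N)
    (hinv : NoInv X N) (hv : VertexFree V N) : C G := by
  obtain ⟨L, hL, hLN, -, hF⟩ := label hC hE hX N hN hinv
  have hbot : L = ⊥ := by
    rw [Subgroup.eq_bot_iff_forall]
    intro l hl
    obtain ⟨v⟩ := hX.tree.connected.nonempty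
    by_cases hlv : l • v = v
    · exact hv l (hLN hl) v hlv
    · exfalso
      obtain ⟨u, x, u', n, hn, hnx, hnu, -, -, hdist⟩ := hF l hl v hlv
      have hn1 : n = 1 := hv n hn x hnx
      rw [hn1, one_smul] at hnu
      rw [← hnu] at hdist
      have := hX.tree.connected.dist_triangle (u := v) (v := u) (w := l • v)
      omega
  rw [hbot] at hL
  exact IsKer.mem_of_bot hC hL

end Pool.Agent.H93.TR
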