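import Pool.Agent.H93.TR.Turn

/-!
# The subgroups `WW L w`: elementary properties

Module H93 TR WBASIC (MP_2a547c_gt). Complete proof: `WW_le`: the generators lie in `L`. `WW_conj`: conjugation by `g` maps
the generators of `WW L w` to those of `WW L (g • w)` (`L` normal; if `x • v = v` then `g x g⁻¹` fixes `g • v`;
`orb L (g • v) = g • orb L v`, `smul_orb`, the action of `g` on the orbits is injective): `Subgroup.closure_induction` or
`Subgroup.map_closure`-style argument. `WW_orb`: the definition depends only on `orb L w`. `WW_fixed`: let `O` be the set of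
the `v` with `orb L v = orb L w`, `ρ` the homomorphism of `turn`; it kills the generators of `WW L w`, so `ρ l = 1` (apply
`Subgroup.closure_induction` to the statement `∃ h : x ∈ L, ρ ⟨x, h⟩ = 1`), and `l` fixes `w ∈ O`.
-/

set_option autoImplicit false

namespace Pool.Agent.H93.TR

variable {G V : Type} [Group G] [MulAction G V]

theorem WW_le (L : Subgroup G) (w : V) : WW L w ≤ L :=
  (Subgroup.closure_le _).2 (fun _ hx => hx.1)

theorem WW_conj (L : Subgroup G) (hL : L.Normal) (g : G) (w : V) (x : G) (hx : x ∈ WW L w) :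
    g * x * g⁻¹ ∈ WW L (g • w) := by
  unfold WW at hx
  induction hx using Subgroup.closure_induction with
  | mem x hx =>
    obtain ⟨h1, v, h2, h3⟩ := hx
    refine Subgroup.subset_closure ⟨hL.conj_mem x h1 g, g • v, ?_, ?_⟩
    · rw [mul_smul, mul_smul, inv_smul_smul, h2]
    · intro h
      rw [← smul_orb, ← smul_orb] at h
      exact h3 (smul_left_cancel g h)
  | one =>
    rw [mul_one, mul_inv_cancel]
    exact one_mem _
  | mul x y _ _ hx hy =>
    have h : g * (x * y) * g⁻¹ = (g * x * g⁻¹) * (g * y * g⁻¹) := by group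
    rw [h]
    exact mul_mem hx hy
  | inv x _ hx =>
    have h : g * x⁻¹ * g⁻¹ = (g * x * g⁻¹)⁻¹ := by group
    rw [h]
    exact inv_mem hx

theorem WW_orb (L : Subgroup G) {v w : V} (h : orb L v = orb L w) : WW L v = WW L w := by
  unfold WW
  rw [h]

theorem WW_fixed {X : SimpleGraph V} (hX : OnTree G X) (L : Subgroup G) (hL : EdgeFree X L)
    (w : V) (l : G) (hl : l ∈ WW L w) (hw : l • w = w) : l = 1 := by
  obtain ⟨ρ, h1, h2⟩ := turn hX L hL {v | orb L v = orb L w} (by
    intro l hl x hx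
    have h : orb L (l • x) = orb L x := (orb_eq_iff L _ _).2 ⟨l, hl, rfl⟩
    exact h.trans hx)
  have key : ∃ h : l ∈ L, ρ ⟨l, h⟩ = 1 := by
    refine Subgroup.closure_induction (p := fun l _ => ∃ h : l ∈ L, ρ ⟨l, h⟩ = 1) ?_ ?_ ?_ ?_ hl
    · rintro x ⟨hx, v, hv, hv'⟩
      exact ⟨hx, h1 ⟨x, hx⟩ v hv hv'⟩
    · exact ⟨one_mem L, map_one ρ⟩
    · rintro x y _ _ ⟨hx, hx'⟩ ⟨hy, hy'⟩
      refine ⟨mul_mem hx hy, ?_⟩
      have h := map_mul ρ ⟨x, hx⟩ ⟨y, hy⟩
      rw [hx', hy', one_mul] at h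
      exact h
    · rintro x _ ⟨hx, hx'⟩
      refine ⟨inv_mem hx, ?_⟩
      have h := map_inv ρ ⟨x, hx⟩
      rw [hx', inv_one] at h
      exact h
  obtain ⟨h, hρ⟩ := key
  have h3 := h2 ⟨l, h⟩ w hw rfl hρ
  exact congrArg Subtype.val h3

end Pool.Agent.H93.TR
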